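import Mathlib

set_option autoImplicit false

/-! Minors of graphs through branch sets, and a density theorem (Mader). -/

namespace Pool.Agent.H51

open Finset

/-- `S` is connected inside `G` (possibly empty). -/
def Conn {V : Type} (G : SimpleGraph V) (S : Set V) : Prop :=
  ∀ a ∈ S, ∀ b ∈ S, Relation.ReflTransGen (fun u v => u ∈ S ∧ v ∈ S ∧ G.Adj u v) a b

/-- `H` is a minor of `G`. -/
def Minor {V W : Type} (G : SimpleGraph V) (H : SimpleGraph W) : Prop :=
  ∃ B : W → Set V, (∀ x, Conn G (B x)) ∧ (∀ x y, x ≠ y → Disjoint (B x) (B y)) ∧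
    ∀ x y, H.Adj x y → ∃ a ∈ B x, ∃ b ∈ B y, G.Adj a b

lemma conn_star {V : Type} {G : SimpleGraph V} {S : Set V} (c : V) (hc : c ∈ S)
    (h : ∀ x ∈ S, x = c ∨ G.Adj c x) : Conn G S := by
  have h1 : ∀ x ∈ S, Relation.ReflTransGen (fun u v => u ∈ S ∧ v ∈ S ∧ G.Adj u v) x c := by
    intro x hx
    rcases h x hx with rfl | hadj
    · exact Relation.ReflTransGen.refl
    · exact Relation.ReflTransGen.single ⟨hx, hc, hadj.symm⟩
  have h2 : ∀ x ∈ S, Relation.ReflTransGen (fun u v => u ∈ S ∧ v ∈ S ∧ G.Adj u v) c x := by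
    intro x hx
    rcases h x hx with rfl | hadj
    · exact Relation.ReflTransGen.refl
    · exact Relation.ReflTransGen.single ⟨hc, hx, hadj⟩
  intro a ha b hb
  exact (h1 a ha).trans (h2 b hb)

lemma conn_of_subset_singleton {V : Type} {G : SimpleGraph V} {S : Set V} (c : V)
    (h : ∀ x ∈ S, x = c) : Conn G S := by
  intro a ha b hb
  rw [h a ha, h b hb]

lemma conn_empty {V : Type} {G : SimpleGraph V} : Conn G (∅ : Set V) := by
  intro a ha
  exact absurd ha (Set.notMem_empty a)

lemma Minor.trans {V W U : Type} {G : SimpleGraph V} {H : SimpleGraph W} {K : SimpleGraph U}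
    (h1 : Minor G H) (h2 : Minor H K) : Minor G K := by
  obtain ⟨B, hBc, hBd, hBa⟩ := h1
  obtain ⟨C, hCc, hCd, hCa⟩ := h2
  refine ⟨fun z => {v | ∃ x ∈ C z, v ∈ B x}, ?_, ?_, ?_⟩
  · intro z a ha b hb
    obtain ⟨x, hx, hax⟩ := ha
    obtain ⟨y, hy, hby⟩ := hb
    have hmono : ∀ x ∈ C z, ∀ a ∈ B x, ∀ b ∈ B x, Relation.ReflTransGen
        (fun u v => u ∈ {v | ∃ x ∈ C z, v ∈ B x} ∧ v ∈ {v | ∃ x ∈ C z, v ∈ B x} ∧ G.Adj u v)
          a b := by
      intro x hx a ha b hb
      refine Relation.ReflTransGen.lift id ?_ _ _ (hBc x a ha b hb)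
      rintro u v ⟨hu, hv, huv⟩
      exact ⟨⟨x, hx, hu⟩, ⟨x, hx, hv⟩, huv⟩
    have hchain := hCc z x hx y hy
    have key : ∀ y, Relation.ReflTransGen (fun u v => u ∈ C z ∧ v ∈ C z ∧ H.Adj u v) x y →
        ∀ b ∈ B y, Relation.ReflTransGen
        (fun u v => u ∈ {v | ∃ x ∈ C z, v ∈ B x} ∧ v ∈ {v | ∃ x ∈ C z, v ∈ B x} ∧ G.Adj u v)
          a b := by
      intro y hxy
      induction hxy with
      | refl =>
        intro b hb
        exact hmono x hx a hax b hb
      | @tail y y' _ hstep ih =>
        intro b hb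
        obtain ⟨hy1, hy2, hadj⟩ := hstep
        obtain ⟨c, hc, d, hd, hcd⟩ := hBa y y' hadj
        refine (ih c hc).trans (Relation.ReflTransGen.head ⟨⟨y, hy1, hc⟩, ⟨y', hy2, hd⟩, hcd⟩ ?_)
        exact hmono y' hy2 d hd b hb
    exact key y hchain b hby
  · intro z z' hz
    rw [Set.disjoint_left]
    rintro v ⟨x, hx, hvx⟩ ⟨y, hy, hvy⟩
    have hxy : x ≠ y := by
      rintro rfl
      exact Set.disjoint_left.1 (hCd z z' hz) hx hy
    exact Set.disjoint_left.1 (hBd x y hxy) hvx hvy
  · intro z z' hz
    obtain ⟨x, hx, y, hy, hxy⟩ := hCa z z' hz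
    obtain ⟨a, ha, b, hb, hab⟩ := hBa x y hxy
    exact ⟨a, ⟨x, hx, ha⟩, b, ⟨y, hy, hb⟩, hab⟩

lemma Minor.of_injective {V W : Type} {G : SimpleGraph V} {H : SimpleGraph W} (f : W → V)
    (hf : Function.Injective f) (h : ∀ x y, H.Adj x y → G.Adj (f x) (f y)) : Minor G H := by
  refine ⟨fun x => {f x}, ?_, ?_, ?_⟩
  · intro x
    exact conn_of_subset_singleton (f x) (fun y hy => hy)
  · intro x y hxy
    rw [Set.disjoint_left]
    intro v hv hv'
    exact hxy (hf (hv.symm.trans hv'))
  · intro x y hxy
    exact ⟨f x, rfl, f y, rfl, h x y hxy⟩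

lemma Minor.refl {V : Type} (G : SimpleGraph V) : Minor G G :=
  Minor.of_injective id Function.injective_id (fun _ _ h => h)

open Classical in
/-- Number of ordered adjacent pairs. -/
noncomputable def ord {W : Type} [Fintype W] (H : SimpleGraph W) : ℕ :=
  (univ.filter fun p : W × W => H.Adj p.1 p.2).card

open Classical in
lemma ord_eq_sum {W : Type} [Fintype W] (H : SimpleGraph W) :
    ord H = ∑ a, (univ.filter fun b => H.Adj a b).card := by
  unfold ord
  rw [Finset.card_filter, Fintype.sum_prod_type]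
  refine Finset.sum_congr rfl fun a _ => ?_
  rw [Finset.card_filter]

/-- Contraction of `y` into `x`. -/
def contract {W : Type} (H : SimpleGraph W) (x y : W) : SimpleGraph {w : W // w ≠ y} where
  Adj u v := u ≠ v ∧ (H.Adj u.1 v.1 ∨ (u.1 = x ∧ H.Adj y v.1) ∨ (v.1 = x ∧ H.Adj y u.1))
  symm := ⟨by
    rintro u v ⟨h1, h2⟩
    refine ⟨h1.symm, ?_⟩
    rcases h2 with h | h | h
    · exact Or.inl h.symm
    · exact Or.inr (Or.inr h)
    · exact Or.inr (Or.inl h)⟩
  loopless := ⟨fun u h => h.1 rfl⟩

lemma minor_contract {W : Type} (H : SimpleGraph W) (x y : W) (hxy : H.Adj x y) :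
    Minor H (contract H x y) := by
  classical
  refine ⟨fun u => if u.1 = x then {x, y} else {u.1}, ?_, ?_, ?_⟩
  · intro u
    by_cases h : u.1 = x
    · simp only [h, if_true]
      apply conn_star x (by simp)
      intro z hz
      simp only [Set.mem_insert_iff, Set.mem_singleton_iff] at hz
      rcases hz with rfl | rfl
      · left; rfl
      · right; exact hxy
    · simp only [h, if_false]
      exact conn_of_subset_singleton u.1 (fun z hz => hz)
  · intro u v huv
    rw [Set.disjoint_left]
    intro z hz hz'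
    have huv' : u.1 ≠ v.1 := fun h => huv (Subtype.ext h)
    have hu := u.2
    have hv := v.2
    by_cases h1 : u.1 = x
    · by_cases h2 : v.1 = x
      · exact huv' (h1.trans h2.symm)
      · simp only [h1, h2, if_true, if_false, Set.mem_insert_iff, Set.mem_singleton_iff] at hz hz'
        rcases hz with h | h
        · exact h2 (hz'.symm.trans h)
        · exact hv (hz'.symm.trans h)
    · by_cases h2 : v.1 = x
      · simp only [h1, h2, if_true, if_false, Set.mem_insert_iff, Set.mem_singleton_iff] at hz hz'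
        rcases hz' with h | h
        · exact h1 (hz.symm.trans h)
        · exact hu (hz.symm.trans h)
      · simp only [h1, h2, if_false, Set.mem_singleton_iff] at hz hz'
        exact huv' (hz.symm.trans hz')
  · intro u v huv
    have hself : ∀ w : {w : W // w ≠ y}, w.1 ∈ (if w.1 = x then ({x, y} : Set W) else {w.1}) := by
      intro w
      by_cases h : w.1 = x
      · simp [h]
      · simp [h]
    rcases huv.2 with h | ⟨h, h'⟩ | ⟨h, h'⟩
    · exact ⟨u.1, hself u, v.1, hself v, h⟩
    · refine ⟨y, ?_, v.1, hself v, h'⟩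
      simp [h]
    · refine ⟨u.1, hself u, y, ?_, h'.symm⟩
      simp [h]

open Classical in
lemma ord_contract {W : Type} [Fintype W] (H : SimpleGraph W) (x y : W) (hxy : H.Adj x y) :
    ord H ≤ ord (contract H x y) + 2 +
      2 * (univ.filter fun z => H.Adj x z ∧ H.Adj y z).card := by
  set CN := univ.filter fun z => H.Adj x z ∧ H.Adj y z with hCN
  set E : Finset (W × W) := {(x, y), (y, x)} ∪ (CN.image (fun z => (y, z)) ∪
    CN.image (fun z => (z, y))) with hE
  have hEc : E.card ≤ 2 + 2 * CN.card := by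
    rw [hE]
    refine (card_union_le _ _).trans ?_
    have h1 : ({(x, y), (y, x)} : Finset (W × W)).card ≤ 2 := card_le_two
    have h2 := card_union_le (CN.image (fun z => (y, z))) (CN.image (fun z => (z, y)))
    have h3 : (CN.image (fun z => (y, z))).card ≤ CN.card := card_image_le
    have h4 : (CN.image (fun z => (z, y))).card ≤ CN.card := card_image_le
    omega
  set S := univ.filter fun p : W × W => H.Adj p.1 p.2 with hS
  have hSE : S.card ≤ E.card + (S \ E).card := by
    have := Finset.card_le_card (Finset.subset_union_right (s₁ := E) (s₂ := S))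
    have h2 : E ∪ S = E ∪ (S \ E) := by simp
    rw [h2] at this
    exact this.trans (card_union_le _ _)
  let ρ : W → {w : W // w ≠ y} := fun w => if h : w = y then ⟨x, hxy.ne⟩ else ⟨w, h⟩
  have hρ1 : (ρ y).1 = x := by simp [ρ]
  have hρ2 : ∀ w, w ≠ y → (ρ w).1 = w := by
    intro w hw
    simp [ρ, hw]
  have hmapsto : ∀ p ∈ S \ E, (ρ p.1, ρ p.2) ∈
      (univ.filter fun p : {w : W // w ≠ y} × {w : W // w ≠ y} =>
        (contract H x y).Adj p.1 p.2) := by
    rintro ⟨a, b⟩ hp
    simp only [hS, mem_sdiff, mem_filter, mem_univ, true_and] at hp ⊢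
    obtain ⟨hab, hnE⟩ := hp
    have hneq : ¬ (a = x ∧ b = y) ∧ ¬ (a = y ∧ b = x) := by
      constructor
      · rintro ⟨rfl, rfl⟩; apply hnE; simp [hE]
      · rintro ⟨rfl, rfl⟩; apply hnE; simp [hE]
    by_cases ha : a = y
    · subst ha
      have hb : b ≠ a := hab.ne'
      refine ⟨?_, Or.inr (Or.inl ⟨hρ1, ?_⟩)⟩
      · intro h
        have := congrArg Subtype.val h
        rw [hρ1, hρ2 b hb] at this
        exact hneq.2 ⟨rfl, this.symm⟩
      · rw [hρ2 b hb]; exact hab
    · by_cases hb : b = y
      · subst hb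
        refine ⟨?_, Or.inr (Or.inr ⟨hρ1, ?_⟩)⟩
        · intro h
          have := congrArg Subtype.val h
          rw [hρ1, hρ2 a ha] at this
          exact hneq.1 ⟨this, rfl⟩
        · rw [hρ2 a ha]; exact hab.symm
      · refine ⟨?_, Or.inl ?_⟩
        · intro h
          have := congrArg Subtype.val h
          rw [hρ2 a ha, hρ2 b hb] at this
          exact hab.ne this
        · rw [hρ2 a ha, hρ2 b hb]; exact hab
  have hinj : Set.InjOn (fun p : W × W => (ρ p.1, ρ p.2)) (S \ E : Finset (W × W)) := by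
    rintro ⟨a, b⟩ hp ⟨c, d⟩ hq heq
    simp only [coe_sdiff, Set.mem_sdiff, mem_coe, hS, mem_filter, mem_univ, true_and] at hp hq
    obtain ⟨hab, hnE⟩ := hp
    obtain ⟨hcd, hnE'⟩ := hq
    simp only [Prod.mk.injEq] at heq
    obtain ⟨h1, h2⟩ := heq
    have hnE1 : ¬ (a = x ∧ b = y) ∧ ¬ (a = y ∧ b = x) ∧ ¬ (a = y ∧ H.Adj x b ∧ H.Adj y b) ∧
        ¬ (b = y ∧ H.Adj x a ∧ H.Adj y a) := by
      refine ⟨?_, ?_, ?_, ?_⟩
      · rintro ⟨rfl, rfl⟩; apply hnE; simp [hE]
      · rintro ⟨rfl, rfl⟩; apply hnE; simp [hE]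
      · rintro ⟨rfl, h, h'⟩; apply hnE; simp [hE, hCN, h, h']
      · rintro ⟨rfl, h, h'⟩; apply hnE; simp [hE, hCN, h, h']
    have hnE2 : ¬ (c = x ∧ d = y) ∧ ¬ (c = y ∧ d = x) ∧ ¬ (c = y ∧ H.Adj x d ∧ H.Adj y d) ∧
        ¬ (d = y ∧ H.Adj x c ∧ H.Adj y c) := by
      refine ⟨?_, ?_, ?_, ?_⟩
      · rintro ⟨rfl, rfl⟩; apply hnE'; simp [hE]
      · rintro ⟨rfl, rfl⟩; apply hnE'; simp [hE]
      · rintro ⟨rfl, h, h'⟩; apply hnE'; simp [hE, hCN, h, h']
      · rintro ⟨rfl, h, h'⟩; apply hnE'; simp [hE, hCN, h, h']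
    have hρ : ∀ u v, ρ u = ρ v → u = v ∨ (u = x ∧ v = y) ∨ (u = y ∧ v = x) := by
      intro u v huv
      have huv' := congrArg Subtype.val huv
      by_cases hu : u = y
      · by_cases hv : v = y
        · left; rw [hu, hv]
        · right; right
          rw [hu, hρ1, hρ2 v hv] at huv'
          exact ⟨hu, huv'.symm⟩
      · by_cases hv : v = y
        · right; left
          rw [hv, hρ1, hρ2 u hu] at huv'
          exact ⟨huv', hv⟩
        · left
          rwa [hρ2 u hu, hρ2 v hv] at huv'
    rcases hρ a c h1 with g1 | ⟨g1, g1'⟩ | ⟨g1, g1'⟩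
    · rcases hρ b d h2 with g2 | ⟨g2, g2'⟩ | ⟨g2, g2'⟩
      · rw [g1, g2]
      · exfalso
        rw [g2'] at hcd
        rw [g1, g2] at hab
        exact hnE2.2.2.2 ⟨g2', hab.symm, hcd.symm⟩
      · exfalso
        rw [← g1, g2'] at hcd
        rw [g2] at hab
        exact hnE1.2.2.2 ⟨g2, hcd.symm, hab.symm⟩
    · rcases hρ b d h2 with g2 | ⟨g2, g2'⟩ | ⟨g2, g2'⟩
      · exfalso
        rw [g1, g2] at hab
        rw [g1'] at hcd
        exact hnE2.2.2.1 ⟨g1', hab, hcd⟩
      · exfalso
        rw [g1, g2] at hab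
        exact hab.ne rfl
      · exact absurd ⟨g1, g2⟩ hnE1.1
    · rcases hρ b d h2 with g2 | ⟨g2, g2'⟩ | ⟨g2, g2'⟩
      · exfalso
        rw [g1] at hab
        rw [g1', ← g2] at hcd
        exact hnE1.2.2.1 ⟨g1, hcd, hab⟩
      · exact absurd ⟨g1, g2⟩ hnE1.2.1
      · exfalso
        rw [g1, g2] at hab
        exact hab.ne rfl
  have hfin : (S \ E).card ≤ ord (contract H x y) :=
    Finset.card_le_card_of_injOn _ hmapsto hinj
  have : ord H = S.card := rfl
  omega

/-- Adding a dominating vertex to a complete minor inside a neighbourhood. -/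
lemma minor_top_succ {W : Type} (H : SimpleGraph W) (x : W) (n : ℕ) (hn : 2 ≤ n)
    (h : Minor (H.comap (Subtype.val : {z // H.Adj x z} → W)) (⊤ : SimpleGraph (Fin n))) :
    Minor H (⊤ : SimpleGraph (Fin (n + 1))) := by
  obtain ⟨C, hCc, hCd, hCa⟩ := h
  refine ⟨Fin.cons {x} (fun i => Subtype.val '' C i), ?_, ?_, ?_⟩
  · intro i
    refine Fin.cases ?_ (fun i => ?_) i
    · simp only [Fin.cons_zero]
      exact conn_of_subset_singleton x (fun z hz => hz)
    · simp only [Fin.cons_succ]
      rintro _ ⟨a, ha, rfl⟩ _ ⟨b, hb, rfl⟩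
      refine Relation.ReflTransGen.lift Subtype.val ?_ _ _ (hCc i a ha b hb)
      rintro u v ⟨hu, hv, huv⟩
      exact ⟨⟨u, hu, rfl⟩, ⟨v, hv, rfl⟩, huv⟩
  · have h0 : ∀ i, Disjoint ({x} : Set W) (Subtype.val '' C i) := by
      intro i
      rw [Set.disjoint_left]
      rintro z hz ⟨a, _, rfl⟩
      have h1 : a.1 = x := hz
      have h2 := a.2
      rw [h1] at h2
      exact H.loopless.irrefl _ h2
    intro i j
    refine Fin.cases ?_ (fun i => ?_) i
    · refine Fin.cases ?_ (fun j => ?_) j
      · intro h; exact absurd rfl h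
      · intro _
        simp only [Fin.cons_zero, Fin.cons_succ]
        exact h0 j
    · refine Fin.cases ?_ (fun j => ?_) j
      · intro _
        simp only [Fin.cons_zero, Fin.cons_succ]
        exact (h0 i).symm
      · intro hij
        simp only [Fin.cons_succ]
        have hij' : i ≠ j := fun h => hij (by rw [h])
        rw [Set.disjoint_left]
        rintro _ ⟨a, ha, rfl⟩ ⟨b, hb, hab⟩
        have : b = a := Subtype.ext hab
        rw [this] at hb
        exact Set.disjoint_left.1 (hCd i j hij') ha hb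
  · have hne : ∀ i : Fin n, ∃ a, a ∈ C i := by
      intro i
      obtain ⟨j, hj⟩ : ∃ j : Fin n, i ≠ j := by
        by_cases hi : i = ⟨0, by omega⟩
        · exact ⟨⟨1, by omega⟩, by rw [hi]; intro h; simp at h⟩
        · exact ⟨⟨0, by omega⟩, hi⟩
      obtain ⟨a, ha, _⟩ := hCa i j (by simpa using hj)
      exact ⟨a, ha⟩
    intro i j
    refine Fin.cases ?_ (fun i => ?_) i
    · refine Fin.cases ?_ (fun j => ?_) j
      · intro h; simp at h
      · intro _
        obtain ⟨a, ha⟩ := hne j
        simp only [Fin.cons_zero, Fin.cons_succ]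
        exact ⟨x, rfl, a.1, ⟨a, ha, rfl⟩, a.2⟩
    · refine Fin.cases ?_ (fun j => ?_) j
      · intro _
        obtain ⟨a, ha⟩ := hne i
        simp only [Fin.cons_zero, Fin.cons_succ]
        exact ⟨a.1, ⟨a, ha, rfl⟩, x, rfl, a.2.symm⟩
      · intro hij
        have hij' : i ≠ j := by
          intro h
          rw [h] at hij
          simp at hij
        obtain ⟨a, ha, b, hb, hab⟩ := hCa i j (by simpa using hij')
        simp only [Fin.cons_succ]
        exact ⟨a.1, ⟨a, ha, rfl⟩, b.1, ⟨b, hb, rfl⟩, hab⟩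

/-- Mader's theorem: dense graphs have complete minors. -/
theorem mader (s : ℕ) : ∀ (m : ℕ) (W : Type) [Fintype W] (H : SimpleGraph W),
    Fintype.card W = m → 0 < m → 2 ^ (s + 1) * m ≤ ord H →
    Minor H (⊤ : SimpleGraph (Fin (s + 2))) := by
  classical
  induction s with
  | zero =>
    intro m W _ H hm hm0 hord
    have hpos : 0 < ord H := by
      have : 0 < 2 ^ (0 + 1) * m := by positivity
      omega
    unfold ord at hpos
    obtain ⟨⟨a, b⟩, hab⟩ := Finset.card_pos.1 hpos
    simp only [mem_filter, mem_univ, true_and] at hab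
    refine Minor.of_injective ![a, b] ?_ ?_
    · intro i j hij
      fin_cases i <;> fin_cases j <;> simp at hij ⊢
      · exact hab.ne hij
      · exact hab.ne hij.symm
    · intro i j hij
      fin_cases i <;> fin_cases j <;> simp at hij ⊢
      · exact hab
      · exact hab.symm
  | succ s ihs =>
    intro m
    induction m using Nat.strong_induction_on with
    | _ m ihm =>
      intro W _ H hm hm0 hord
      by_cases hc : ∃ x y, H.Adj x y ∧
          (univ.filter fun z => H.Adj x z ∧ H.Adj y z).card < 2 ^ (s + 1)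
      · obtain ⟨x, y, hxy, hcn⟩ := hc
        have h1 := ord_contract H x y hxy
        have hcard : Fintype.card {w : W // w ≠ y} = m - 1 := by
          have := Fintype.card_subtype_compl (fun w : W => w = y)
          rw [Fintype.card_subtype_eq, hm] at this
          exact this
        have hm2 : 1 < m := by
          rw [← hm, Fintype.one_lt_card_iff]
          exact ⟨x, y, hxy.ne⟩
        have h2 : Minor (contract H x y) (⊤ : SimpleGraph (Fin (s + 1 + 2))) := by
          apply ihm (m - 1) (by omega) _ _ hcard (by omega)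
          have e1 : 2 ^ (s + 1 + 1) * m = 2 ^ (s + 1 + 1) * (m - 1) + 2 ^ (s + 1 + 1) := by
            obtain ⟨m', rfl⟩ : ∃ m', m = m' + 1 := ⟨m - 1, by omega⟩
            simp only [Nat.add_sub_cancel]
            ring
          have e2 : 2 ^ (s + 1 + 1) = 2 * 2 ^ (s + 1) := by ring
          omega
        exact (minor_contract H x y hxy).trans h2
      · push Not at hc
        have hpos : 0 < ord H := by
          have : 0 < 2 ^ (s + 1 + 1) * m := by positivity
          omega
        unfold ord at hpos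
        obtain ⟨⟨x, b⟩, hxb⟩ := Finset.card_pos.1 hpos
        simp only [mem_filter, mem_univ, true_and] at hxb
        have h1 : Minor (H.comap (Subtype.val : {z // H.Adj x z} → W))
            (⊤ : SimpleGraph (Fin (s + 2))) := by
          apply ihs (Fintype.card {z // H.Adj x z}) _ _ rfl
          · exact Fintype.card_pos_iff.2 ⟨⟨b, hxb⟩⟩
          · rw [ord_eq_sum]
            have h2 : ∀ z : {z // H.Adj x z}, 2 ^ (s + 1) ≤ (univ.filter fun w =>
                (H.comap (Subtype.val : {z // H.Adj x z} → W)).Adj z w).card := by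
              intro z
              have h3 := hc x z.1 z.2
              refine h3.trans ?_
              have h4 : (univ.filter fun w => H.Adj x w ∧ H.Adj z.1 w) ⊆
                  (univ.filter fun w =>
                (H.comap (Subtype.val : {z // H.Adj x z} → W)).Adj z w).image Subtype.val := by
                intro w hw
                simp only [mem_filter, mem_univ, true_and] at hw
                rw [mem_image]
                refine ⟨⟨w, hw.1⟩, ?_, rfl⟩
                simp only [mem_filter, mem_univ, true_and]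
                exact hw.2
              exact (card_le_card h4).trans card_image_le
            calc 2 ^ (s + 1) * Fintype.card {z // H.Adj x z}
                = ∑ _z : {z // H.Adj x z}, 2 ^ (s + 1) := by
                  rw [Finset.sum_const, card_univ, smul_eq_mul, mul_comm]
              _ ≤ _ := Finset.sum_le_sum fun z _ => h2 z
        exact minor_top_succ H x (s + 2) (by omega) h1

/-- The graph `K_{3,3}`. -/
abbrev K33 : SimpleGraph (Fin 3 ⊕ Fin 3) := completeBipartiteGraph (Fin 3) (Fin 3)

lemma minor_K6_K33 : Minor (⊤ : SimpleGraph (Fin 6)) K33 := by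
  refine Minor.of_injective (Sum.elim (Fin.castLE (by omega)) (fun i => ⟨i.1 + 3, by omega⟩)) ?_ ?_
  · rintro (i | i) (j | j) h
    · simp only [Sum.elim_inl] at h
      exact congrArg Sum.inl (by ext; simpa [Fin.ext_iff] using h)
    · simp only [Sum.elim_inl, Sum.elim_inr, Fin.ext_iff, Fin.val_castLE] at h
      omega
    · simp only [Sum.elim_inl, Sum.elim_inr, Fin.ext_iff, Fin.val_castLE] at h
      omega
    · simp only [Sum.elim_inr, Fin.ext_iff] at h
      exact congrArg Sum.inr (by ext; omega)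
  · rintro (i | i) (j | j) h
    · simp at h
    · simp only [Sum.elim_inl, Sum.elim_inr, SimpleGraph.top_adj, ne_eq, Fin.ext_iff,
        Fin.val_castLE]
      omega
    · simp only [Sum.elim_inl, Sum.elim_inr, SimpleGraph.top_adj, ne_eq, Fin.ext_iff,
        Fin.val_castLE]
      omega
    · simp at h

/-- Minors of a graph without `K_{3,3}` minor are sparse. -/
theorem sparse_of_no_K33 {V W : Type} [Fintype W] {G : SimpleGraph V} (hG : ¬ Minor G K33)
    (A : SimpleGraph W) (hA : Minor G A) : ord A ≤ 32 * Fintype.card W := by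
  by_contra hcon
  push Not at hcon
  rcases Nat.eq_zero_or_pos (Fintype.card W) with h0 | h0
  · have : ord A = 0 := by
      have hW : IsEmpty W := Fintype.card_eq_zero_iff.1 h0
      unfold ord
      rw [Finset.card_eq_zero]
      ext ⟨a, _⟩
      exact (hW.false a).elim
    omega
  · apply hG
    have h1 : Minor A (⊤ : SimpleGraph (Fin 6)) := by
      apply mader 4 (Fintype.card W) W A rfl h0
      have : 2 ^ (4 + 1) = 32 := by norm_num
      omega
    exact (hA.trans h1).trans minor_K6_K33

end Pool.Agent.H51
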