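import Mathlib
import Pool.Agent.H51.Minor

set_option autoImplicit false

/-! In a graph without `K_{3,3}` minor some vertex of `P` sees few vertices in a strong sense. -/

namespace Pool.Agent.H51

open Finset Classical

/-- The claimants of `y`. -/
noncomputable def claim {V : Type} (P : Finset V) (R : V → V → Prop) (y : V) : Finset V :=
  P.filter (fun x => R x y)

lemma mem_claim {V : Type} {P : Finset V} {R : V → V → Prop} {x y : V} :
    x ∈ claim P R y ↔ x ∈ P ∧ R x y := by
  simp [claim]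

/-- Degree sums of graphs on a finite set `P` that are minors. -/
lemma degsum_le {V : Type} {H : SimpleGraph V} (hH : ¬ Minor H K33) (P : Finset V)
    (A : SimpleGraph V) (hA : Minor H A) (hAP : ∀ u v, A.Adj u v → u ∈ P ∧ v ∈ P) :
    ∑ t ∈ P, (P.filter (fun u => A.Adj t u)).card ≤ 32 * P.card := by
  have h1 : Minor A (A.comap (Subtype.val : {x // x ∈ P} → V)) :=
    Minor.of_injective Subtype.val Subtype.val_injective (fun _ _ h => h)
  have h2 := sparse_of_no_K33 hH _ (hA.trans h1)
  rw [Fintype.card_coe, ord_eq_sum] at h2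
  refine le_trans (le_of_eq ?_) h2
  rw [← Finset.sum_coe_sort P]
  refine Finset.sum_congr rfl fun t _ => ?_
  have himg : P.filter (fun u => A.Adj t u) =
      (univ.filter fun b : {x // x ∈ P} =>
        (A.comap (Subtype.val : {x // x ∈ P} → V)).Adj t b).image Subtype.val := by
    ext u
    simp only [mem_filter, mem_image, mem_univ, true_and]
    constructor
    · rintro ⟨hu, h⟩
      exact ⟨⟨u, hu⟩, h, rfl⟩
    · rintro ⟨b, hb, rfl⟩
      exact ⟨b.2, hb⟩
  rw [himg, Finset.card_image_of_injective _ Subtype.val_injective]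
  apply le_antisymm
  · apply Finset.card_le_card
    intro x hx
    simpa only [mem_filter] using hx
  · apply Finset.card_le_card
    intro x hx
    simpa only [mem_filter] using hx

/-- The first auxiliary graph: adjacency and contention. -/
def auxA {V : Type} (H : SimpleGraph V) (P : Finset V) (R : V → V → Prop) : SimpleGraph V where
  Adj u v := u ≠ v ∧ u ∈ P ∧ v ∈ P ∧ (H.Adj u v ∨ ∃ y, y ∉ P ∧ claim P R y = {u, v})
  symm := ⟨by
    rintro u v ⟨h1, h2, h3, h4⟩
    refine ⟨h1.symm, h3, h2, ?_⟩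
    rcases h4 with h | ⟨y, hy, h⟩
    · exact Or.inl h.symm
    · exact Or.inr ⟨y, hy, by rw [h, Finset.pair_comm]⟩⟩
  loopless := ⟨fun u h => h.1 rfl⟩

lemma minor_auxA {V : Type} (H : SimpleGraph V) (P : Finset V) (R : V → V → Prop)
    (hR : ∀ x ∈ P, ∀ y, R x y → H.Adj x y) : Minor H (auxA H P R) := by
  have hown : ∀ y : V, ∃ o, (claim P R y).Nonempty → o ∈ claim P R y := by
    intro y
    by_cases h : (claim P R y).Nonempty
    · obtain ⟨o, ho⟩ := h
      exact ⟨o, fun _ => ho⟩
    · exact ⟨y, fun h' => absurd h' h⟩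
  choose o ho using hown
  refine ⟨fun u => {z | u ∈ P ∧ (z = u ∨ (z ∉ P ∧ (claim P R z).Nonempty ∧ o z = u))},
    ?_, ?_, ?_⟩
  · intro u
    by_cases hu : u ∈ P
    · have hc : u ∈ {z | u ∈ P ∧ (z = u ∨ (z ∉ P ∧ (claim P R z).Nonempty ∧ o z = u))} :=
        ⟨hu, Or.inl rfl⟩
      refine conn_star u hc ?_
      rintro z ⟨_, hz | ⟨hz1, hz2, hz3⟩⟩
      · exact Or.inl hz
      · right
        have := ho z hz2
        rw [hz3, mem_claim] at this
        exact hR u hu z this.2
    · have : {z | u ∈ P ∧ (z = u ∨ (z ∉ P ∧ (claim P R z).Nonempty ∧ o z = u))} = (∅ : Set V) := by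
        ext z; simp [hu]
      show Conn H {z | u ∈ P ∧ (z = u ∨ (z ∉ P ∧ (claim P R z).Nonempty ∧ o z = u))}
      rw [this]
      exact conn_empty
  · intro u v huv
    rw [Set.disjoint_left]
    rintro z ⟨hu, hz⟩ ⟨hv, hz'⟩
    rcases hz with h | ⟨h1, h2, h3⟩
    · rcases hz' with h' | ⟨h1', h2', h3'⟩
      · exact huv (h.symm.trans h')
      · exact h1' (h ▸ hu)
    · rcases hz' with h' | ⟨h1', h2', h3'⟩
      · exact h1 (h' ▸ hv)
      · exact huv (h3.symm.trans h3')
  · rintro u v ⟨huv, hu, hv, h | ⟨y, hy, hcl⟩⟩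
    · exact ⟨u, ⟨hu, Or.inl rfl⟩, v, ⟨hv, Or.inl rfl⟩, h⟩
    · have hne : (claim P R y).Nonempty := by rw [hcl]; exact ⟨u, by simp⟩
      have hoy := ho y hne
      have hau : H.Adj u y := by
        have : u ∈ claim P R y := by rw [hcl]; simp
        exact hR u hu y (mem_claim.1 this).2
      have hav : H.Adj v y := by
        have : v ∈ claim P R y := by rw [hcl]; simp
        exact hR v hv y (mem_claim.1 this).2
      rw [hcl, mem_insert, mem_singleton] at hoy
      rcases hoy with h | h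
      · exact ⟨y, ⟨hu, Or.inr ⟨hy, hne, h⟩⟩, v, ⟨hv, Or.inl rfl⟩, hav.symm⟩
      · exact ⟨u, ⟨hu, Or.inl rfl⟩, y, ⟨hv, Or.inr ⟨hy, hne, h⟩⟩, hau⟩

/-- Valid partial systems of distinct pairs. -/
def ValidM {V : Type} (P : Finset V) (R : V → V → Prop) (M : Finset (V × V × V)) : Prop :=
  (∀ m ∈ M, m.1 ∉ P ∧ m.2.1 ∈ claim P R m.1 ∧ m.2.2 ∈ claim P R m.1 ∧ m.2.1 ≠ m.2.2) ∧
  (∀ m ∈ M, ∀ m' ∈ M, m.1 = m'.1 → m = m') ∧
  (∀ m ∈ M, ∀ m' ∈ M, m.2 = m'.2 → m = m') ∧
  (∀ m ∈ M, ∀ m' ∈ M, m.2 ≠ (m'.2.2, m'.2.1))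

/-- The second auxiliary graph. -/
def auxM {V : Type} (M : Finset (V × V × V)) : SimpleGraph V where
  Adj u v := u ≠ v ∧ ∃ m ∈ M, m.2 = (u, v) ∨ m.2 = (v, u)
  symm := ⟨by
    rintro u v ⟨h1, m, hm, h⟩
    exact ⟨h1.symm, m, hm, h.symm⟩⟩
  loopless := ⟨fun u h => h.1 rfl⟩

lemma minor_auxM {V : Type} (H : SimpleGraph V) (P : Finset V) (R : V → V → Prop)
    (hR : ∀ x ∈ P, ∀ y, R x y → H.Adj x y) (M : Finset (V × V × V)) (hM : ValidM P R M) :
    Minor H (auxM M) := by
  obtain ⟨h1, h2, h3, h4⟩ := hM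
  refine ⟨fun u => {z | u ∈ P ∧ (z = u ∨ ∃ m ∈ M, m.1 = z ∧ m.2.1 = u)}, ?_, ?_, ?_⟩
  · intro u
    by_cases hu : u ∈ P
    · have hc : u ∈ {z | u ∈ P ∧ (z = u ∨ ∃ m ∈ M, m.1 = z ∧ m.2.1 = u)} :=
        ⟨hu, Or.inl rfl⟩
      refine conn_star u hc ?_
      rintro z ⟨_, hz | ⟨m, hm, hmz, hmu⟩⟩
      · exact Or.inl hz
      · right
        have := (h1 m hm).2.1
        rw [hmu, hmz, mem_claim] at this
        exact hR u hu z this.2
    · have : {z | u ∈ P ∧ (z = u ∨ ∃ m ∈ M, m.1 = z ∧ m.2.1 = u)} = (∅ : Set V) := by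
        ext z; simp [hu]
      show Conn H {z | u ∈ P ∧ (z = u ∨ ∃ m ∈ M, m.1 = z ∧ m.2.1 = u)}
      rw [this]
      exact conn_empty
  · intro u v huv
    rw [Set.disjoint_left]
    rintro z ⟨hu, hz⟩ ⟨hv, hz'⟩
    rcases hz with h | ⟨m, hm, hmz, hmu⟩
    · rcases hz' with h' | ⟨m', hm', hmz', hmu'⟩
      · exact huv (h.symm.trans h')
      · exact (h1 m' hm').1 (hmz' ▸ h ▸ hu)
    · rcases hz' with h' | ⟨m', hm', hmz', hmu'⟩
      · exact (h1 m hm).1 (hmz ▸ h' ▸ hv)
      · have := h2 m hm m' hm' (hmz.trans hmz'.symm)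
        rw [this] at hmu
        exact huv (hmu.symm.trans hmu')
  · rintro u v ⟨huv, m, hm, h | h⟩
    · have ha : m.2.1 = u := by rw [h]
      have hb : m.2.2 = v := by rw [h]
      obtain ⟨_, hm1, hm2, _⟩ := h1 m hm
      rw [ha] at hm1
      rw [hb] at hm2
      have hu := (mem_claim.1 hm1).1
      have hv := (mem_claim.1 hm2).1
      refine ⟨m.1, ⟨hu, Or.inr ⟨m, hm, rfl, ha⟩⟩, v, ⟨hv, Or.inl rfl⟩, ?_⟩
      exact (hR v hv _ (mem_claim.1 hm2).2).symm
    · have ha : m.2.1 = v := by rw [h]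
      have hb : m.2.2 = u := by rw [h]
      obtain ⟨_, hm1, hm2, _⟩ := h1 m hm
      rw [ha] at hm1
      rw [hb] at hm2
      have hv := (mem_claim.1 hm1).1
      have hu := (mem_claim.1 hm2).1
      refine ⟨u, ⟨hu, Or.inl rfl⟩, m.1, ⟨hv, Or.inr ⟨m, hm, rfl, ha⟩⟩, ?_⟩
      exact hR u hu _ (mem_claim.1 hm2).2

lemma auxM_mem {V : Type} {P : Finset V} {R : V → V → Prop} {M : Finset (V × V × V)}
    (hM : ValidM P R M) {u v : V} (h : (auxM M).Adj u v) : u ∈ P ∧ v ∈ P := by
  obtain ⟨_, m, hm, h⟩ := h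
  obtain ⟨_, h1, h2, _⟩ := hM.1 m hm
  rcases h with h | h
  · rw [h] at h1 h2
    exact ⟨(mem_claim.1 h1).1, (mem_claim.1 h2).1⟩
  · rw [h] at h1 h2
    exact ⟨(mem_claim.1 h2).1, (mem_claim.1 h1).1⟩

lemma card_M_le {V : Type} {H : SimpleGraph V} (hH : ¬ Minor H K33) (P : Finset V)
    (R : V → V → Prop) (hR : ∀ x ∈ P, ∀ y, R x y → H.Adj x y)
    (M : Finset (V × V × V)) (hM : ValidM P R M) : M.card ≤ 32 * P.card := by
  have h1 := degsum_le hH P (auxM M) (minor_auxM H P R hR M hM) (fun u v h => auxM_mem hM h)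
  refine le_trans ?_ h1
  rw [← Finset.card_sigma]
  apply Finset.card_le_card_of_injOn (fun m => ⟨m.2.1, m.2.2⟩)
  · intro m hm
    have hm' : m ∈ M := hm
    obtain ⟨_, g1, g2, g3⟩ := hM.1 m hm'
    simp only [coe_sigma, Set.mem_sigma_iff, mem_coe, mem_filter]
    exact ⟨(mem_claim.1 g1).1, (mem_claim.1 g2).1, g3, m, hm', Or.inl rfl⟩
  · intro m hm m' hm' h
    simp only [Sigma.mk.injEq, heq_eq_eq] at h
    exact hM.2.2.1 m hm m' hm' (Prod.ext h.1 h.2)

/-- The restriction of a graph to a finite set. -/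
def restr {V : Type} (H : SimpleGraph V) (Q : Finset V) : SimpleGraph V where
  Adj u v := H.Adj u v ∧ u ∈ Q ∧ v ∈ Q
  symm := ⟨fun _ _ h => ⟨h.1.symm, h.2.2, h.2.1⟩⟩
  loopless := ⟨fun _ h => h.1.ne rfl⟩

/-- The number of the sets of `M` incident with vertices of `P`, counted with multiplicity. -/
lemma inc_le {V : Type} {H : SimpleGraph V} (hH : ¬ Minor H K33) (P : Finset V)
    (R : V → V → Prop) (hR : ∀ x ∈ P, ∀ y, R x y → H.Adj x y) (F : Finset V)
    (hF : ∀ y ∈ F, y ∉ P) :
    ∑ t ∈ P, (F.filter (fun y => R t y)).card ≤ 32 * (P.card + F.card) := by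
  have hA : Minor H (restr H (P ∪ F)) :=
    Minor.of_injective id Function.injective_id (fun u v h => h.1)
  have h1 := degsum_le hH (P ∪ F) (restr H (P ∪ F)) hA (fun u v h => h.2)
  have h2 : (P ∪ F).card ≤ P.card + F.card := card_union_le _ _
  have h3 : ∑ t ∈ P, (F.filter (fun y => R t y)).card ≤
      ∑ t ∈ P ∪ F, ((P ∪ F).filter (fun u => (restr H (P ∪ F)).Adj t u)).card := by
    calc ∑ t ∈ P, (F.filter (fun y => R t y)).card
        ≤ ∑ t ∈ P, ((P ∪ F).filter (fun u => (restr H (P ∪ F)).Adj t u)).card := by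
          refine Finset.sum_le_sum fun t ht => Finset.card_le_card ?_
          intro y hy
          rw [mem_filter] at hy ⊢
          exact ⟨mem_union_right _ hy.1, hR t ht y hy.2, mem_union_left _ ht,
            mem_union_right _ hy.1⟩
      _ ≤ _ := Finset.sum_le_sum_of_subset subset_union_left
  calc _ ≤ _ := h3
    _ ≤ _ := h1
    _ ≤ _ := Nat.mul_le_mul_left _ h2

/-- Three vertices have at most two common neighbours. -/
lemma common_le_two {V : Type} {H : SimpleGraph V} (hH : ¬ Minor H K33) {a b c : V}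
    (hab : a ≠ b) (hac : a ≠ c) (hbc : b ≠ c) (S : Finset V)
    (hS : ∀ y ∈ S, H.Adj a y ∧ H.Adj b y ∧ H.Adj c y) : S.card ≤ 2 := by
  by_contra hcon
  push Not at hcon
  obtain ⟨x, y, z, hx, hy, hz, hxy, hxz, hyz⟩ := Finset.two_lt_card_iff.1 hcon
  apply hH
  obtain ⟨x1, x2, x3⟩ := hS x hx
  obtain ⟨y1, y2, y3⟩ := hS y hy
  obtain ⟨z1, z2, z3⟩ := hS z hz
  refine Minor.of_injective (Sum.elim ![a, b, c] ![x, y, z]) ?_ ?_
  · have i1 : Function.Injective ![a, b, c] := by
      intro i j h
      fin_cases i <;> fin_cases j <;>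
        simp [hab, hac, hbc, hab.symm, hac.symm, hbc.symm] at h ⊢
    have i2 : Function.Injective ![x, y, z] := by
      intro i j h
      fin_cases i <;> fin_cases j <;>
        simp [hxy, hxz, hyz, hxy.symm, hxz.symm, hyz.symm] at h ⊢
    apply Function.Injective.sumElim i1 i2
    intro i j h
    fin_cases i <;> fin_cases j <;>
      simp [x1.ne, x2.ne, x3.ne, y1.ne, y2.ne, y3.ne, z1.ne, z2.ne, z3.ne] at h
  · rintro (i | i) (j | j) h
    · simp at h
    · fin_cases i <;> fin_cases j <;> simp <;> assumption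
    · fin_cases i <;> fin_cases j <;> simp [SimpleGraph.adj_comm] <;>
        first | exact x1 | exact x2 | exact x3 | exact y1 | exact y2 | exact y3 |
          exact z1 | exact z2 | exact z3
    · simp at h

/-- The constant of the sparsity lemma. -/
def D0 : ℕ := 2509920

/-- The sparsity lemma. -/
theorem exists_low {V : Type} [Fintype V] {H : SimpleGraph V} (hH : ¬ Minor H K33)
    (P : Finset V) (hP : P.Nonempty) (R : V → V → Prop)
    (hR : ∀ x ∈ P, ∀ y, R x y → H.Adj x y) :
    ∃ t ∈ P, (P.filter (fun u => R t u)).card ≤ D0 ∧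
      (univ.filter fun y => y ∉ P ∧ R t y ∧ 3 ≤ (claim P R y).card).card ≤ D0 ∧
      (P.filter fun u => u ≠ t ∧ ∃ y, y ∉ P ∧ claim P R y = {t, u}).card ≤ D0 := by
  -- a maximal valid system
  obtain ⟨M, hMmem, hMmax⟩ := Finset.exists_max_image
    ((univ : Finset (Finset (V × V × V))).filter (fun M => ValidM P R M)) Finset.card
    ⟨∅, by simp [ValidM]⟩
  have hM : ValidM P R M := (mem_filter.1 hMmem).2
  set F : Finset V := M.image (fun m => m.1) with hF
  have hFP : ∀ y ∈ F, y ∉ P := by
    intro y hy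
    obtain ⟨m, hm, rfl⟩ := mem_image.1 hy
    exact (hM.1 m hm).1
  have hFc : F.card ≤ 32 * P.card := card_image_le.trans (card_M_le hH P R hR M hM)
  have s1 := degsum_le hH P (auxA H P R) (minor_auxA H P R hR) (fun u v h => ⟨h.2.1, h.2.2.1⟩)
  have s2 := degsum_le hH P (auxM M) (minor_auxM H P R hR M hM) (fun u v h => auxM_mem hM h)
  have s3 := inc_le hH P R hR F hFP
  have hex : ∃ t ∈ P, (P.filter (fun u => (auxA H P R).Adj t u)).card +
      (P.filter (fun u => (auxM M).Adj t u)).card + (F.filter (fun y => R t y)).card ≤ 1120 := by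
    by_contra hcon
    push Not at hcon
    have h1 : ∑ t ∈ P, 1121 ≤ ∑ t ∈ P, ((P.filter (fun u => (auxA H P R).Adj t u)).card +
      (P.filter (fun u => (auxM M).Adj t u)).card + (F.filter (fun y => R t y)).card) :=
      Finset.sum_le_sum fun t ht => hcon t ht
    rw [Finset.sum_const, smul_eq_mul, Finset.sum_add_distrib, Finset.sum_add_distrib] at h1
    have hPc : 0 < P.card := hP.card_pos
    omega
  obtain ⟨t, ht, hdeg⟩ := hex
  refine ⟨t, ht, ?_, ?_, ?_⟩
  · have : (P.filter (fun u => R t u)).card ≤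
        (P.filter (fun u => (auxA H P R).Adj t u)).card := by
      apply Finset.card_le_card
      intro u hu
      rw [mem_filter] at hu ⊢
      have := hR t ht u hu.2
      exact ⟨hu.1, this.ne, ht, hu.1, Or.inl this⟩
    unfold D0
    omega
  · set Y := univ.filter fun y => y ∉ P ∧ R t y ∧ 3 ≤ (claim P R y).card with hY
    set N := P.filter (fun u => (auxM M).Adj t u) with hN
    have hsplit : Y ⊆ F.filter (fun y => R t y) ∪ (Y \ F) := by
      intro y hy
      by_cases hyF : y ∈ F
      · rw [hY, mem_filter] at hy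
        exact mem_union_left _ (mem_filter.2 ⟨hyF, hy.2.2.1⟩)
      · exact mem_union_right _ (mem_sdiff.2 ⟨hy, hyF⟩)
    -- each remaining server gives a pair of neighbours of `t` in `auxM M`
    have hpair : ∀ y, ∃ q : V × V, y ∈ Y \ F → (q ∈ N ×ˢ N ∧ q.1 ≠ q.2 ∧ q.1 ≠ t ∧ q.2 ≠ t ∧
        q.1 ∈ claim P R y ∧ q.2 ∈ claim P R y) := by
      intro y
      by_cases hy : y ∈ Y \ F
      · rw [mem_sdiff, hY, mem_filter] at hy
        obtain ⟨⟨_, hyP, hty, h3⟩, hyF⟩ := hy
        have htc : t ∈ claim P R y := mem_claim.2 ⟨ht, hty⟩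
        have h2 : 1 < ((claim P R y).erase t).card := by
          rw [card_erase_of_mem htc]; omega
        obtain ⟨a, ha, b, hb, hab⟩ := Finset.one_lt_card.1 h2
        rw [mem_erase] at ha hb
        have hadj : ∀ c, c ≠ t → c ∈ claim P R y → (auxM M).Adj t c := by
          intro c hct hc
          by_contra hcon
          have hnot : ∀ m ∈ M, m.2 ≠ (t, c) ∧ m.2 ≠ (c, t) := by
            intro m hm
            constructor
            · intro h; exact hcon ⟨hct.symm, m, hm, Or.inl h⟩
            · intro h; exact hcon ⟨hct.symm, m, hm, Or.inr h⟩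
          have hnm : (y, t, c) ∉ M := fun h => (hnot _ h).1 rfl
          have hyM : ∀ m ∈ M, m.1 ≠ y := by
            intro m hm h
            exact hyF (mem_image.2 ⟨m, hm, h⟩)
          have hvalid : ValidM P R (insert (y, t, c) M) := by
            refine ⟨?_, ?_, ?_, ?_⟩
            · intro m hm
              rcases mem_insert.1 hm with rfl | hm
              · exact ⟨hyP, htc, hc, hct.symm⟩
              · exact hM.1 m hm
            · intro m hm m' hm' h
              rcases mem_insert.1 hm with rfl | hm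
              · rcases mem_insert.1 hm' with rfl | hm'
                · rfl
                · exact absurd h.symm (hyM m' hm')
              · rcases mem_insert.1 hm' with rfl | hm'
                · exact absurd h (hyM m hm)
                · exact hM.2.1 m hm m' hm' h
            · intro m hm m' hm' h
              rcases mem_insert.1 hm with rfl | hm
              · rcases mem_insert.1 hm' with rfl | hm'
                · rfl
                · exact absurd h.symm (hnot m' hm').1
              · rcases mem_insert.1 hm' with rfl | hm'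
                · exact absurd h (hnot m hm).1
                · exact hM.2.2.1 m hm m' hm' h
            · intro m hm m' hm' h
              rcases mem_insert.1 hm with rfl | hm
              · rcases mem_insert.1 hm' with rfl | hm'
                · simp only [Prod.mk.injEq] at h
                  exact hct h.1.symm
                · simp only [Prod.mk.injEq] at h
                  exact (hnot m' hm').2 (Prod.ext h.2.symm h.1.symm)
              · rcases mem_insert.1 hm' with rfl | hm'
                · exact (hnot m hm).2 h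
                · exact hM.2.2.2 m hm m' hm' h
          have := hMmax (insert (y, t, c) M) (mem_filter.2 ⟨mem_univ _, hvalid⟩)
          rw [card_insert_of_notMem hnm] at this
          omega
        refine ⟨(a, b), fun _ => ⟨?_, hab, ha.1, hb.1, ha.2, hb.2⟩⟩
        rw [mem_product]
        exact ⟨mem_filter.2 ⟨(mem_claim.1 ha.2).1, hadj a ha.1 ha.2⟩,
          mem_filter.2 ⟨(mem_claim.1 hb.2).1, hadj b hb.1 hb.2⟩⟩
      · exact ⟨(y, y), fun h => absurd h hy⟩
    choose q hq using hpair
    have hfib : (Y \ F).card ≤ 2 * ((Y \ F).image q).card := by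
      apply Finset.card_le_mul_card_image
      intro r hr
      obtain ⟨y0, hy0, rfl⟩ := mem_image.1 hr
      obtain ⟨_, g1, g2, g3, g4, g5⟩ := hq y0 hy0
      apply common_le_two hH g1 g2 g3
      intro y hy
      rw [mem_filter] at hy
      obtain ⟨hy1, hy2⟩ := hy
      obtain ⟨_, _, _, _, k4, k5⟩ := hq y hy1
      rw [hy2] at k4 k5
      have hty : R t y := by
        rw [mem_sdiff, hY, mem_filter] at hy1
        exact hy1.1.2.2.1
      rw [mem_claim] at k4 k5
      exact ⟨hR _ k4.1 y k4.2, hR _ k5.1 y k5.2, hR t ht y hty⟩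
    have himg : ((Y \ F).image q).card ≤ N.card * N.card := by
      rw [← card_product]
      apply card_le_card
      intro r hr
      obtain ⟨y0, hy0, rfl⟩ := mem_image.1 hr
      exact (hq y0 hy0).1
    have hNc : N.card ≤ 1120 := by omega
    have h1 := card_le_card hsplit
    have h2 := card_union_le (F.filter (fun y => R t y)) (Y \ F)
    have h3 : N.card * N.card ≤ 1120 * 1120 := Nat.mul_le_mul hNc hNc
    unfold D0
    omega
  · have : (P.filter fun u => u ≠ t ∧ ∃ y, y ∉ P ∧ claim P R y = {t, u}).card ≤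
        (P.filter (fun u => (auxA H P R).Adj t u)).card := by
      apply Finset.card_le_card
      intro u hu
      rw [mem_filter] at hu ⊢
      exact ⟨hu.1, hu.2.1.symm, ht, hu.1, Or.inr hu.2.2⟩
    unfold D0
    omega

end Pool.Agent.H51
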