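import Mathlib

set_option autoImplicit false

/-! Splitting weighted finite sets in a given proportion. -/

namespace Pool.Agent.H51

open Finset Classical

lemma split_card {V : Type} (S : Finset V) (p q : ℕ) (hq : 0 < q) (hpq : p ≤ q) :
    ∃ R ⊆ S, p * S.card ≤ q * R.card ∧ q * R.card ≤ p * S.card + q := by
  set r := (p * S.card + (q - 1)) / q with hr
  have e1 : q * r + (p * S.card + (q - 1)) % q = p * S.card + (q - 1) := Nat.div_add_mod _ _
  have e2 : (p * S.card + (q - 1)) % q < q := Nat.mod_lt _ hq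
  have h1 : r ≤ S.card := by
    by_contra hcon
    push Not at hcon
    have h2 : q * (S.card + 1) ≤ q * r := Nat.mul_le_mul_left q hcon
    have h3 : p * S.card ≤ q * S.card := Nat.mul_le_mul_right _ hpq
    rw [Nat.mul_add, mul_one] at h2
    omega
  obtain ⟨R, hR, hRc⟩ := Finset.exists_subset_card_eq h1
  refine ⟨R, hR, ?_, ?_⟩
  · rw [hRc]; omega
  · rw [hRc]; omega

lemma split_b {V : Type} (S : Finset V) (b : V → ℕ) (hb : ∀ y ∈ S, b y = 1 ∨ b y = 2)
    (p q : ℕ) (hq : 0 < q) (hpq : p ≤ q) :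
    ∃ R ⊆ S, p * ∑ y ∈ S, b y ≤ q * ∑ y ∈ R, b y ∧ q * R.card ≤ p * S.card + 2 * q := by
  obtain ⟨R1, h1, h1a, h1b⟩ := split_card (S.filter (fun y => b y = 1)) p q hq hpq
  obtain ⟨R2, h2, h2a, h2b⟩ := split_card (S.filter (fun y => ¬ b y = 1)) p q hq hpq
  have hS1 : ∑ y ∈ S.filter (fun y => b y = 1), b y = (S.filter (fun y => b y = 1)).card := by
    rw [Finset.card_eq_sum_ones]
    exact Finset.sum_congr rfl fun y hy => (mem_filter.1 hy).2
  have hS2 : ∑ y ∈ S.filter (fun y => ¬ b y = 1), b y =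
      2 * (S.filter (fun y => ¬ b y = 1)).card := by
    rw [mul_comm, ← smul_eq_mul, ← Finset.sum_const]
    refine Finset.sum_congr rfl fun y hy => ?_
    have := hb y (mem_filter.1 hy).1
    have h' := (mem_filter.1 hy).2
    omega
  have hR1 : ∑ y ∈ R1, b y = R1.card := by
    rw [Finset.card_eq_sum_ones]
    exact Finset.sum_congr rfl fun y hy => (mem_filter.1 (h1 hy)).2
  have hR2 : ∑ y ∈ R2, b y = 2 * R2.card := by
    rw [mul_comm, ← smul_eq_mul, ← Finset.sum_const]
    refine Finset.sum_congr rfl fun y hy => ?_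
    have := hb y (mem_filter.1 (h2 hy)).1
    have h' := (mem_filter.1 (h2 hy)).2
    omega
  have hdisj : Disjoint R1 R2 := by
    rw [Finset.disjoint_left]
    intro y hy hy'
    exact (mem_filter.1 (h2 hy')).2 (mem_filter.1 (h1 hy)).2
  have hSs := Finset.sum_filter_add_sum_filter_not S (fun y => b y = 1) b
  have hSc := Finset.card_filter_add_card_filter_not (s := S) (fun y => b y = 1)
  refine ⟨R1 ∪ R2, union_subset (h1.trans (filter_subset _ _)) (h2.trans (filter_subset _ _)),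
    ?_, ?_⟩
  · rw [Finset.sum_union hdisj, ← hSs, hS1, hS2, hR1, hR2, Nat.mul_add, Nat.mul_add]
    nlinarith
  · rw [Finset.card_union_of_disjoint hdisj, ← hSc, Nat.mul_add, Nat.mul_add]
    omega

/-- The division lemma. -/
lemma split_ab {V : Type} (S : Finset V) (a b : V → ℕ) (ha : ∀ y ∈ S, a y = 1 ∨ a y = 2)
    (hb : ∀ y ∈ S, b y = 1 ∨ b y = 2) (p q : ℕ) (hq : 0 < q) (hpq : p ≤ q) :
    ∃ R ⊆ S, p * ∑ y ∈ S, b y ≤ q * ∑ y ∈ R, b y ∧
      q * ∑ y ∈ R, a y ≤ p * ∑ y ∈ S, a y + 8 * q := by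
  obtain ⟨R1, h1, h1a, h1b⟩ := split_b (S.filter (fun y => a y = 1)) b
    (fun y hy => hb y (mem_filter.1 hy).1) p q hq hpq
  obtain ⟨R2, h2, h2a, h2b⟩ := split_b (S.filter (fun y => ¬ a y = 1)) b
    (fun y hy => hb y (mem_filter.1 hy).1) p q hq hpq
  have hS1 : ∑ y ∈ S.filter (fun y => a y = 1), a y = (S.filter (fun y => a y = 1)).card := by
    rw [Finset.card_eq_sum_ones]
    exact Finset.sum_congr rfl fun y hy => (mem_filter.1 hy).2
  have hS2 : ∑ y ∈ S.filter (fun y => ¬ a y = 1), a y =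
      2 * (S.filter (fun y => ¬ a y = 1)).card := by
    rw [mul_comm, ← smul_eq_mul, ← Finset.sum_const]
    refine Finset.sum_congr rfl fun y hy => ?_
    have := ha y (mem_filter.1 hy).1
    have h' := (mem_filter.1 hy).2
    omega
  have hR1 : ∑ y ∈ R1, a y = R1.card := by
    rw [Finset.card_eq_sum_ones]
    exact Finset.sum_congr rfl fun y hy => (mem_filter.1 (h1 hy)).2
  have hR2 : ∑ y ∈ R2, a y = 2 * R2.card := by
    rw [mul_comm, ← smul_eq_mul, ← Finset.sum_const]
    refine Finset.sum_congr rfl fun y hy => ?_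
    have := ha y (mem_filter.1 (h2 hy)).1
    have h' := (mem_filter.1 (h2 hy)).2
    omega
  have hdisj : Disjoint R1 R2 := by
    rw [Finset.disjoint_left]
    intro y hy hy'
    exact (mem_filter.1 (h2 hy')).2 (mem_filter.1 (h1 hy)).2
  have hSs := Finset.sum_filter_add_sum_filter_not S (fun y => a y = 1) a
  have hSb := Finset.sum_filter_add_sum_filter_not S (fun y => a y = 1) b
  refine ⟨R1 ∪ R2, union_subset (h1.trans (filter_subset _ _)) (h2.trans (filter_subset _ _)),
    ?_, ?_⟩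
  · rw [Finset.sum_union hdisj, ← hSb, Nat.mul_add, Nat.mul_add]
    omega
  · rw [Finset.sum_union hdisj, ← hSs, hS1, hS2, hR1, hR2, Nat.mul_add, Nat.mul_add]
    nlinarith

end Pool.Agent.H51
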