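import Mathlib
import Pool.Agent.H51.Sparse
import Pool.Agent.H51.Split

set_option autoImplicit false

/-! The colouring step. -/

namespace Pool.Agent.H51

open Finset Classical

/-- `w x y` is positive. -/
def Rel {V : Type} (w : V → V → ℕ) (x y : V) : Prop := 0 < w x y

/-- The servers with claimants exactly `t` and `u`. -/
noncomputable def srv {V : Type} [Fintype V] (P : Finset V) (R : V → V → Prop) (t u : V) :
    Finset V :=
  univ.filter (fun y => y ∉ P ∧ claim P R y = {t, u})

lemma mem_srv {V : Type} [Fintype V] {P : Finset V} {R : V → V → Prop} {t u y : V} :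
    y ∈ srv P R t u ↔ y ∉ P ∧ claim P R y = {t, u} := by
  simp [srv]

lemma srv_unique {V : Type} [Fintype V] {P : Finset V} {R : V → V → Prop} {t u v y : V}
    (h1 : y ∈ srv P R t u) (h2 : y ∈ srv P R t v) : u = v := by
  rw [mem_srv] at h1 h2
  have h := h1.2.symm.trans h2.2
  have hu : u ∈ ({t, v} : Finset V) := by rw [← h]; simp
  have hv : v ∈ ({t, u} : Finset V) := by rw [h]; simp
  rw [mem_insert, mem_singleton] at hu hv
  rcases hu with rfl | hu
  · rcases hv with hv | hv <;> exact hv.symm
  · exact hu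

lemma srv_eq_of_rel {V : Type} [Fintype V] {P : Finset V} {R : V → V → Prop} {t u x y : V}
    (h1 : y ∈ srv P R t u) (hx : x ∈ P) (hxt : x ≠ t) (hR : R x y) : u = x := by
  rw [mem_srv] at h1
  have : x ∈ claim P R y := mem_claim.2 ⟨hx, hR⟩
  rw [h1.2, mem_insert, mem_singleton] at this
  rcases this with h | h
  · exact absurd h hxt
  · exact h.symm

/-- Trichotomy for the servers of `t`. -/
lemma server_cases {V : Type} [Fintype V] {P : Finset V} {R : V → V → Prop} {t y : V}
    (ht : t ∈ P) (hR : R t y) : y ∈ P ∨ (y ∉ P ∧ 3 ≤ (claim P R y).card) ∨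
      ∃ u ∈ P, y ∈ srv P R t u := by
  by_cases hy : y ∈ P
  · exact Or.inl hy
  right
  by_cases h3 : 3 ≤ (claim P R y).card
  · exact Or.inl ⟨hy, h3⟩
  right
  have htc : t ∈ claim P R y := mem_claim.2 ⟨ht, hR⟩
  have hc : ((claim P R y).erase t).card ≤ 1 := by
    rw [card_erase_of_mem htc]; omega
  have : Nonempty V := ⟨t⟩
  rcases Finset.card_le_one_iff_subset_singleton.1 hc with ⟨v, hv⟩
  by_cases he : (claim P R y).erase t = ∅
  · refine ⟨t, ht, mem_srv.2 ⟨hy, ?_⟩⟩
    rw [← insert_erase htc, he]
    simp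
  · obtain ⟨u, hu⟩ := Finset.nonempty_iff_ne_empty.2 he
    have huv : u = v := mem_singleton.1 (hv hu)
    subst huv
    have heq : (claim P R y).erase t = {u} := by
      apply Finset.Subset.antisymm hv
      rwa [singleton_subset_iff]
    refine ⟨u, (mem_claim.1 (mem_of_mem_erase hu)).1, mem_srv.2 ⟨hy, ?_⟩⟩
    rw [← insert_erase htc, heq]

/-- The contenders of `t`. -/
noncomputable def cont {V : Type} [Fintype V] (P : Finset V) (R : V → V → Prop) (t : V) :
    Finset V :=
  P.filter fun u => u ≠ t ∧ ∃ y, y ∉ P ∧ claim P R y = {t, u}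

/-- Servers of `t` with at least three claimants. -/
noncomputable def thr {V : Type} [Fintype V] (P : Finset V) (R : V → V → Prop) (t : V) :
    Finset V :=
  univ.filter fun y => y ∉ P ∧ R t y ∧ 3 ≤ (claim P R y).card

lemma sum_mem_eq {V : Type} [Fintype V] (S : Finset V) (f : V → ℤ) :
    ∑ y ∈ S, f y = ∑ y, if y ∈ S then f y else 0 := by
  rw [Finset.sum_ite_mem, univ_inter]

/-- Splitting the weight of `t`. -/
lemma weight_le {V : Type} [Fintype V] (P : Finset V) (t : V) (ht : t ∈ P)
    (w : V → V → ℕ) (hw2 : ∀ x y, w x y ≤ 2) (f : V → ℤ)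
    (hf : ∀ y, f y ≤ w t y) (g : V → V → ℤ) (hg : ∀ u y, 0 ≤ g u y)
    (hfg : ∀ u ∈ P, ∀ y ∈ srv P (Rel w) t u, f y ≤ g u y) :
    ∑ y, f y ≤ 2 * ((P.filter (fun u => Rel w t u)).card : ℤ) +
      2 * ((thr P (Rel w) t).card : ℤ) + ∑ u ∈ insert t (cont P (Rel w) t), ∑ y, g u y := by
  have h1 : ∀ y, f y ≤ (if y ∈ P.filter (fun u => Rel w t u) then (2 : ℤ) else 0) +
      (if y ∈ thr P (Rel w) t then (2 : ℤ) else 0) + ∑ u ∈ insert t (cont P (Rel w) t), g u y := by
    intro y
    have hs : 0 ≤ ∑ u ∈ insert t (cont P (Rel w) t), g u y :=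
      Finset.sum_nonneg fun u _ => hg u y
    have hw : (w t y : ℤ) ≤ 2 := by exact_mod_cast hw2 t y
    have hi1 : (0:ℤ) ≤ (if y ∈ P.filter (fun u => Rel w t u) then (2 : ℤ) else 0) := by
      split_ifs <;> norm_num
    have hi2 : (0:ℤ) ≤ (if y ∈ thr P (Rel w) t then (2 : ℤ) else 0) := by
      split_ifs <;> norm_num
    have hfy := hf y
    by_cases hR : Rel w t y
    · rcases server_cases ht hR with h | h | ⟨u, hu, h⟩
      · rw [if_pos (mem_filter.2 ⟨h, hR⟩)]
        linarith
      · rw [if_pos (show y ∈ thr P (Rel w) t from mem_filter.2 ⟨mem_univ _, h.1, hR, h.2⟩)]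
        linarith
      · have hmem : u ∈ insert t (cont P (Rel w) t) := by
          by_cases hut : u = t
          · rw [hut]; exact mem_insert_self _ _
          · exact mem_insert_of_mem (mem_filter.2 ⟨hu, hut, y, mem_srv.1 h⟩)
        have h2 := Finset.single_le_sum (fun v _ => hg v y) hmem
        have h3 := hfg u hu y h
        linarith
    · have : w t y = 0 := by
        unfold Rel at hR
        omega
      rw [this] at hfy
      push_cast at hfy
      linarith
  calc ∑ y, f y ≤ ∑ y, ((if y ∈ P.filter (fun u => Rel w t u) then (2 : ℤ) else 0) +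
      (if y ∈ thr P (Rel w) t then (2 : ℤ) else 0) +
        ∑ u ∈ insert t (cont P (Rel w) t), g u y) := Finset.sum_le_sum fun y _ => h1 y
    _ = _ := by
      rw [Finset.sum_add_distrib, Finset.sum_add_distrib, ← sum_mem_eq, ← sum_mem_eq,
        Finset.sum_const, Finset.sum_const, Finset.sum_comm]
      simp only [nsmul_eq_mul]
      ring

theorem color_step {V : Type} [Fintype V] (P : Finset V) (t : V) (ht : t ∈ P)
    (w : V → V → ℕ) (hw2 : ∀ x y, w x y ≤ 2)
    (X : V → Finset V) (c' : V → Bool) :
    ∃ c : V → Bool,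
      (∀ x ∈ P, x ≠ t → ∑ y, (if c y = c x then (w x y : ℤ) else 0) ≤
         ∑ y, (if c' y = c' x then (if (∃ u ∈ P, y ∈ srv P (Rel w) t u) then (0:ℤ)
            else (w x y : ℤ)) else 0) +
         ∑ y ∈ srv P (Rel w) t x \ X x, (w x y : ℤ)) ∧
      (∑ y, (if c y = c t then (w t y : ℤ) else 0) ≤
         2 * ((P.filter (fun u => Rel w t u)).card : ℤ) + 2 * ((thr P (Rel w) t).card : ℤ)
         + ∑ u ∈ cont P (Rel w) t, (if c' u = c' t then (0 : ℤ) else
            ∑ y ∈ X u, (w t y : ℤ))) := by
  have hex : ∀ y, ∃ b : Bool, (¬ (∃ u ∈ P, y ∈ srv P (Rel w) t u) → b = c' y) ∧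
      (∀ u ∈ P, y ∈ srv P (Rel w) t u → y ∈ X u → b = !c' u) ∧
      (∀ u ∈ P, y ∈ srv P (Rel w) t u → y ∉ X u → b = !c' t) := by
    intro y
    by_cases h : ∃ u ∈ P, y ∈ srv P (Rel w) t u
    · obtain ⟨u, hu, hy⟩ := h
      by_cases hX : y ∈ X u
      · refine ⟨!c' u, fun h => absurd ⟨u, hu, hy⟩ h, ?_, ?_⟩
        · intro v _ hy' _
          rw [srv_unique hy hy']
        · intro v _ hy' hX'
          rw [← srv_unique hy hy'] at hX'
          exact absurd hX hX'
      · refine ⟨!c' t, fun h => absurd ⟨u, hu, hy⟩ h, ?_, ?_⟩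
        · intro v _ hy' hX'
          rw [← srv_unique hy hy'] at hX'
          exact absurd hX' hX
        · intro v _ _ _
          rfl
    · refine ⟨c' y, fun _ => rfl, ?_, ?_⟩
      · intro u hu hy
        exact absurd ⟨u, hu, hy⟩ h
      · intro u hu hy
        exact absurd ⟨u, hu, hy⟩ h
  choose c hc1 hc2 hc3 using hex
  have hcP : ∀ x ∈ P, c x = c' x := by
    intro x hx
    apply hc1
    rintro ⟨u, _, hu⟩
    exact (mem_srv.1 hu).1 hx
  refine ⟨c, ?_, ?_⟩
  · intro x hx hxt
    rw [sum_mem_eq (srv P (Rel w) t x \ X x), ← Finset.sum_add_distrib]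
    refine Finset.sum_le_sum fun y _ => ?_
    have hw0 : (0 : ℤ) ≤ (w x y : ℤ) := Int.natCast_nonneg _
    by_cases hE : ∃ u ∈ P, y ∈ srv P (Rel w) t u
    · rw [if_pos hE]
      obtain ⟨u, hu, hy⟩ := hE
      by_cases hR : Rel w x y
      · have hux := srv_eq_of_rel hy hx hxt hR
        subst hux
        by_cases hX : y ∈ X u
        · have h1 := hc2 y u hu hy hX
          have h2 : ¬ c y = c u := by
            rw [h1, hcP u hu]
            cases c' u <;> simp
          rw [if_neg h2]
          split_ifs <;> simp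
        · rw [if_pos (mem_sdiff.2 ⟨hy, hX⟩)]
          split_ifs <;> simp
      · have : w x y = 0 := by
          unfold Rel at hR
          omega
        rw [this]
        simp
    · rw [if_neg hE, hc1 y hE, hcP x hx]
      split_ifs <;> simp
  · have h := weight_le P t ht w hw2 (fun y => if c y = c t then (w t y : ℤ) else 0)
      (fun y => by split_ifs <;> simp)
      (fun u y => if u = t then 0 else if c' u = c' t then 0 else
        if y ∈ X u then (w t y : ℤ) else 0)
      (fun u y => by split_ifs <;> simp) ?_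
    · refine h.trans ?_
      have hnt : t ∉ cont P (Rel w) t := by
        intro h'
        exact (mem_filter.1 h').2.1 rfl
      rw [Finset.sum_insert hnt]
      simp only [if_true, Finset.sum_const_zero, zero_add]
      apply add_le_add le_rfl
      refine Finset.sum_le_sum fun u hu => ?_
      have hut : u ≠ t := (mem_filter.1 hu).2.1
      by_cases hcc : c' u = c' t
      · simp [hut, hcc]
      · simp only [hut, hcc, if_false]
        rw [← sum_mem_eq]
    · intro u hu y hy
      by_cases hX : y ∈ X u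
      · have h1 := hc2 y u hu hy hX
        by_cases hut : u = t
        · subst hut
          rw [h1, hcP u hu]
          cases c' u <;> simp
        · by_cases hcc : c' u = c' t
          · rw [h1, hcP t ht, hcc]
            cases c' t <;> simp
          · simp only [hut, hcc, hX, if_false, if_true]
            split_ifs <;> simp
      · have h1 := hc3 y u hu hy hX
        rw [h1, hcP t ht]
        have : ¬ ((!c' t) = c' t) := by cases c' t <;> simp
        rw [if_neg this]
        split_ifs <;> simp

end Pool.Agent.H51
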