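import Mathlib
import Pool.Agent.H51.Color

set_option autoImplicit false

/-! The inductive instances and the reduction step. -/

namespace Pool.Agent.H51

open Finset Classical


/-- The instances of the induction. -/
structure Inst {V : Type} [Fintype V] (k : ℤ) (H : SimpleGraph V) (P L : Finset V)
    (w : V → V → ℕ) (κ : V → ℤ) : Prop where
  adj : ∀ x y, 0 < w x y → x ∈ P ∧ H.Adj x y
  le2 : ∀ x y, w x y ≤ 2
  le1 : ∀ x y, y ∉ L → w x y ≤ 1
  tot : ∀ x ∈ P, ∑ y, (w x y : ℤ) ≤ 2 * k + 2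
  tA : ∀ x ∈ P, x ∉ L → 2 * (k - ∑ y, (w x y : ℤ)) ≤ (6450891168153600 : ℤ) * (2 * κ x - ∑ y, (w x y : ℤ) + 2) ∧
    ∑ y, (w x y : ℤ) ≤ 2 * κ x + 2
  tL : ∀ x ∈ P, x ∈ L → 4 * (2509920 : ℤ) * ∑ y, (w x y : ℤ) + 8 * (2509920 : ℤ) * k ≤
    (6450891168153600 : ℤ) * (2 * κ x - ∑ y, (w x y : ℤ))

/-- The weights after the removal of `t` and of its servers with at most two claimants. -/
noncomputable def w1 {V : Type} [Fintype V] (P : Finset V) (t : V) (w : V → V → ℕ) (x y : V) : ℕ :=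
  if x = t ∨ (∃ u ∈ P, y ∈ srv P (Rel w) t u) then 0 else w x y

lemma w1_le {V : Type} [Fintype V] (P : Finset V) (t : V) (w : V → V → ℕ) (x y : V) :
    w1 P t w x y ≤ w x y := by
  unfold w1
  split_ifs <;> simp

lemma sum_w1 {V : Type} [Fintype V] (P : Finset V) (t : V) (w : V → V → ℕ) (x : V) (hx : x ∈ P)
    (hxt : x ≠ t) :
    ∑ y, (w1 P t w x y : ℤ) + ∑ y ∈ srv P (Rel w) t x, (w x y : ℤ) = ∑ y, (w x y : ℤ) := by
  rw [sum_mem_eq (srv P (Rel w) t x), ← Finset.sum_add_distrib]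
  refine Finset.sum_congr rfl fun y _ => ?_
  unfold w1
  by_cases hE : ∃ u ∈ P, y ∈ srv P (Rel w) t u
  · rw [if_pos (Or.inr hE)]
    obtain ⟨u, hu, hy⟩ := hE
    by_cases hR : Rel w x y
    · have hux := srv_eq_of_rel hy hx hxt hR
      subst hux
      simp [hy]
    · have : w x y = 0 := by
        unfold Rel at hR
        omega
      simp [this]
  · have h1 : ¬ (x = t ∨ (∃ u ∈ P, y ∈ srv P (Rel w) t u)) := by
      rintro (h | h)
      · exact hxt h
      · exact hE h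
    have h2 : y ∉ srv P (Rel w) t x := fun h => hE ⟨x, hx, h⟩
    rw [if_neg h1, if_neg h2, add_zero]

lemma mid_step {V : Type} [Fintype V] {k : ℤ} {H : SimpleGraph V} {P L : Finset V}
    {w : V → V → ℕ} {κ : V → ℤ} (inst : Inst k H P L w κ) (t : V) (ht : t ∈ P) (p : V → ℕ)
    (hp : ∀ u, (p u : ℤ) ≤ 2 * (6450891168153600 : ℤ))
    (hpA : ∀ u ∈ P, u ≠ t → u ∉ L → (6450891168153600 : ℤ) + 2 ≤ p u)
    (hpL : ∀ u ∈ P, u ≠ t → u ∈ L → (6450891168153600 : ℤ) - 4 * (2509920 : ℤ) ≤ p u) :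
    ∃ X : V → Finset V, (∀ u, X u ⊆ srv P (Rel w) t u) ∧
      (∀ u ∈ P, 2 * (6450891168153600 : ℤ) * ∑ y ∈ X u, (w t y : ℤ) ≤
        p u * ∑ y ∈ srv P (Rel w) t u, (w t y : ℤ) + 16 * (6450891168153600 : ℤ)) ∧
      (∀ u ∈ P, p u * ∑ y ∈ srv P (Rel w) t u, (w u y : ℤ) ≤
        2 * (6450891168153600 : ℤ) * ∑ y ∈ X u, (w u y : ℤ)) ∧
      Inst k H (P.erase t) L (w1 P t w)
        (fun x => κ x - ∑ y ∈ srv P (Rel w) t x \ X x, (w x y : ℤ)) := by
  have hX : ∀ u, ∃ X : Finset V, X ⊆ srv P (Rel w) t u ∧ (u ∈ P →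
      (p u * ∑ y ∈ srv P (Rel w) t u, w u y ≤ 12901782336307200 * ∑ y ∈ X, w u y ∧
      12901782336307200 * ∑ y ∈ X, w t y ≤ p u * ∑ y ∈ srv P (Rel w) t u, w t y +
        8 * 12901782336307200)) := by
    intro u
    by_cases hu : u ∈ P
    · have hpu : p u ≤ 12901782336307200 := by
        have := hp u
        norm_num at this
        exact_mod_cast this
      have ha : ∀ y ∈ srv P (Rel w) t u, w t y = 1 ∨ w t y = 2 := by
        intro y hy
        have h1 : t ∈ claim P (Rel w) y := by rw [(mem_srv.1 hy).2]; simp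
        have h2 : 0 < w t y := (mem_claim.1 h1).2
        have h3 := inst.le2 t y
        omega
      have hb : ∀ y ∈ srv P (Rel w) t u, w u y = 1 ∨ w u y = 2 := by
        intro y hy
        have h1 : u ∈ claim P (Rel w) y := by rw [(mem_srv.1 hy).2]; simp
        have h2 : 0 < w u y := (mem_claim.1 h1).2
        have h3 := inst.le2 u y
        omega
      obtain ⟨X, hX1, hX2, hX3⟩ := split_ab (srv P (Rel w) t u) (w t) (w u) ha hb (p u)
        12901782336307200 (by norm_num) hpu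
      exact ⟨X, hX1, fun _ => ⟨hX2, hX3⟩⟩
    · exact ⟨∅, by simp, fun h => absurd h hu⟩
  choose X hX1 hX2 using hX
  have c1 : ∀ u ∈ P, 2 * (6450891168153600 : ℤ) * ∑ y ∈ X u, (w t y : ℤ) ≤
        p u * ∑ y ∈ srv P (Rel w) t u, (w t y : ℤ) + 16 * (6450891168153600 : ℤ) := by
    intro u hu
    have h := (hX2 u hu).2
    have h' : ((12901782336307200 * ∑ y ∈ X u, w t y : ℕ) : ℤ) ≤
      ((p u * ∑ y ∈ srv P (Rel w) t u, w t y + 8 * 12901782336307200 : ℕ) : ℤ) := by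
      exact_mod_cast h
    push_cast at h'
    norm_num at h' ⊢
    exact h'
  have c2 : ∀ u ∈ P, p u * ∑ y ∈ srv P (Rel w) t u, (w u y : ℤ) ≤
        2 * (6450891168153600 : ℤ) * ∑ y ∈ X u, (w u y : ℤ) := by
    intro u hu
    have h := (hX2 u hu).1
    have h' : ((p u * ∑ y ∈ srv P (Rel w) t u, w u y : ℕ) : ℤ) ≤
      ((12901782336307200 * ∑ y ∈ X u, w u y : ℕ) : ℤ) := by
      exact_mod_cast h
    push_cast at h'
    norm_num at h' ⊢
    exact h'
  refine ⟨X, hX1, c1, c2, ?_⟩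
  have hsum : ∀ x ∈ P.erase t, ∑ y, (w1 P t w x y : ℤ) + ∑ y ∈ srv P (Rel w) t x, (w x y : ℤ) =
      ∑ y, (w x y : ℤ) := fun x hx =>
    sum_w1 P t w x (mem_of_mem_erase hx) (ne_of_mem_erase hx)
  have hβ : ∀ x, 0 ≤ ∑ y ∈ srv P (Rel w) t x, (w x y : ℤ) := fun x =>
    Finset.sum_nonneg fun y _ => Int.natCast_nonneg _
  have hsd : ∀ x, ∑ y ∈ srv P (Rel w) t x \ X x, (w x y : ℤ) =
      ∑ y ∈ srv P (Rel w) t x, (w x y : ℤ) - ∑ y ∈ X x, (w x y : ℤ) := by
    intro x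
    rw [eq_sub_iff_add_eq]
    exact Finset.sum_sdiff (hX1 x)
  constructor
  · intro x y h
    have h1 : 0 < w x y := lt_of_lt_of_le h (w1_le P t w x y)
    obtain ⟨h2, h3⟩ := inst.adj x y h1
    refine ⟨mem_erase.2 ⟨?_, h2⟩, h3⟩
    rintro rfl
    simp [w1] at h
  · exact fun x y => (w1_le P t w x y).trans (inst.le2 x y)
  · exact fun x y hy => (w1_le P t w x y).trans (inst.le1 x y hy)
  · intro x hx
    have h1 := hsum x hx
    have h2 := inst.tot x (mem_of_mem_erase hx)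
    have h3 := hβ x
    linarith
  · intro x hx hxL
    have h1 := hsum x hx
    have h2 := inst.tA x (mem_of_mem_erase hx) hxL
    have h3 := hβ x
    have h4 := c2 x (mem_of_mem_erase hx)
    have h5 := hpA x (mem_of_mem_erase hx) (ne_of_mem_erase hx) hxL
    have h6 : ((6450891168153600 : ℤ) + 2) * ∑ y ∈ srv P (Rel w) t x, (w x y : ℤ) ≤
        2 * (6450891168153600 : ℤ) * ∑ y ∈ X x, (w x y : ℤ) := (mul_le_mul_of_nonneg_right h5 h3).trans h4
    rw [hsd x]
    obtain ⟨h2a, h2b⟩ := h2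
    constructor
    · linarith
    · have : 0 ≤ (6450891168153600 : ℤ) * (2 * (κ x - (∑ y ∈ srv P (Rel w) t x, (w x y : ℤ) -
          ∑ y ∈ X x, (w x y : ℤ))) + 2 - ∑ y, (w1 P t w x y : ℤ)) := by
        linarith
      linarith
  · intro x hx hxL
    have h1 := hsum x hx
    have h2 := inst.tL x (mem_of_mem_erase hx) hxL
    have h3 := hβ x
    have h4 := c2 x (mem_of_mem_erase hx)
    have h5 := hpL x (mem_of_mem_erase hx) (ne_of_mem_erase hx) hxL
    have h6 : ((6450891168153600 : ℤ) - 4 * (2509920 : ℤ)) * ∑ y ∈ srv P (Rel w) t x, (w x y : ℤ) ≤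
        2 * (6450891168153600 : ℤ) * ∑ y ∈ X x, (w x y : ℤ) := (mul_le_mul_of_nonneg_right h5 h3).trans h4
    rw [hsd x]
    linarith

/-- Extending a colouring to `t`. -/
lemma finish {V : Type} [Fintype V] {k : ℤ} {H : SimpleGraph V} {P L : Finset V}
    {w : V → V → ℕ} {κ : V → ℤ} (inst : Inst k H P L w κ) (t : V) (ht : t ∈ P)
    (X : V → Finset V) (c' : V → Bool)
    (h1 : ∀ x ∈ P.erase t, ∑ y, (if c' y = c' x then (w1 P t w x y : ℤ) else 0) ≤
      κ x - ∑ y ∈ srv P (Rel w) t x \ X x, (w x y : ℤ))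
    (h2 : 2 * ((P.filter (fun u => Rel w t u)).card : ℤ) + 2 * ((thr P (Rel w) t).card : ℤ)
         + ∑ u ∈ cont P (Rel w) t, (if c' u = c' t then (0 : ℤ) else
            ∑ y ∈ X u, (w t y : ℤ)) ≤ κ t) :
    ∃ c : V → Bool, ∀ x ∈ P, ∑ y, (if c y = c x then (w x y : ℤ) else 0) ≤ κ x := by
  obtain ⟨c, hc1, hc2⟩ := color_step P t ht w inst.le2 X c'
  refine ⟨c, fun x hx => ?_⟩
  by_cases hxt : x = t
  · subst hxt
    exact hc2.trans h2
  · have h3 := hc1 x hx hxt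
    have h4 := h1 x (mem_erase.2 ⟨hxt, hx⟩)
    have h5 : ∑ y, (if c' y = c' x then (w1 P t w x y : ℤ) else 0) =
        ∑ y, (if c' y = c' x then (if (∃ u ∈ P, y ∈ srv P (Rel w) t u) then (0:ℤ)
            else (w x y : ℤ)) else 0) := by
      refine Finset.sum_congr rfl fun y _ => ?_
      unfold w1
      by_cases hE : ∃ u ∈ P, y ∈ srv P (Rel w) t u
      · simp only [hE, or_true, if_true]
        simp
      · have h1 : ¬ (x = t ∨ (∃ u ∈ P, y ∈ srv P (Rel w) t u)) := by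
          rintro (h | h)
          · exact hxt h
          · exact hE h
        rw [if_neg h1, if_neg hE]
    linarith

end Pool.Agent.H51
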