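import Mathlib
import Pool.Agent.H51.Mid

set_option autoImplicit false

/-! Identifying `t` with a contender. -/

namespace Pool.Agent.H51

open Finset Classical


/-- Contraction of `t` and `z` into `u`. -/
def ctr {V : Type} (H : SimpleGraph V) (t u z : V) : SimpleGraph V where
  Adj x y := x ≠ y ∧ x ≠ t ∧ x ≠ z ∧ y ≠ t ∧ y ≠ z ∧
    (H.Adj x y ∨ (x = u ∧ H.Adj t y) ∨ (y = u ∧ H.Adj x t))
  symm := ⟨by
    rintro x y ⟨h1, h2, h3, h4, h5, h6⟩
    refine ⟨h1.symm, h4, h5, h2, h3, ?_⟩
    rcases h6 with h | ⟨h, h'⟩ | ⟨h, h'⟩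
    · exact Or.inl h.symm
    · exact Or.inr (Or.inr ⟨h, h'.symm⟩)
    · exact Or.inr (Or.inl ⟨h, h'.symm⟩)⟩
  loopless := ⟨fun x h => h.1 rfl⟩

lemma minor_ctr {V : Type} (H : SimpleGraph V) (t u z : V) (hut : u ≠ t)
    (h1 : H.Adj z u) (h2 : H.Adj z t) : Minor H (ctr H t u z) := by
  have hzu : z ≠ u := h1.ne
  have hzt : z ≠ t := h2.ne
  refine ⟨fun x => {y | (x = u ∧ (y = u ∨ y = t ∨ y = z)) ∨ (x ≠ u ∧ x ≠ t ∧ x ≠ z ∧ y = x)},
    ?_, ?_, ?_⟩
  · intro x
    by_cases hx : x = u
    · subst hx
      have hc : z ∈ {y | (x = x ∧ (y = x ∨ y = t ∨ y = z)) ∨ (x ≠ x ∧ x ≠ t ∧ x ≠ z ∧ y = x)} :=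
        Or.inl ⟨rfl, Or.inr (Or.inr rfl)⟩
      refine conn_star z hc ?_
      rintro y (⟨_, rfl | rfl | rfl⟩ | ⟨h, _⟩)
      · exact Or.inr h1
      · exact Or.inr h2
      · exact Or.inl rfl
      · exact absurd rfl h
    · apply conn_of_subset_singleton x
      rintro y (⟨h, _⟩ | ⟨_, _, _, h⟩)
      · exact absurd h hx
      · exact h
  · intro x y hxy
    rw [Set.disjoint_left]
    rintro v (⟨h3, h4⟩ | ⟨h3, h4, h5, h6⟩) (⟨h3', h4'⟩ | ⟨h3', h4', h5', h6'⟩)
    · exact hxy (h3.trans h3'.symm)
    · rcases h4 with h | h | h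
      · exact h3' (h6'.symm.trans h)
      · exact h4' (h6'.symm.trans h)
      · exact h5' (h6'.symm.trans h)
    · rcases h4' with h | h | h
      · exact h3 (h6.symm.trans h)
      · exact h4 (h6.symm.trans h)
      · exact h5 (h6.symm.trans h)
    · exact hxy (h6.symm.trans h6')
  · rintro x y ⟨g1, g2, g3, g4, g5, g6⟩
    have hself : ∀ v, v ≠ t → v ≠ z →
        v ∈ {y | (v = u ∧ (y = u ∨ y = t ∨ y = z)) ∨ (v ≠ u ∧ v ≠ t ∧ v ≠ z ∧ y = v)} := by
      intro v hv1 hv2
      by_cases hv : v = u
      · exact Or.inl ⟨hv, Or.inl hv⟩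
      · exact Or.inr ⟨hv, hv1, hv2, rfl⟩
    rcases g6 with h | ⟨h, h'⟩ | ⟨h, h'⟩
    · exact ⟨x, hself x g2 g3, y, hself y g4 g5, h⟩
    · exact ⟨t, Or.inl ⟨h, Or.inr (Or.inl rfl)⟩, y, hself y g4 g5, h'⟩
    · exact ⟨x, hself x g2 g3, t, Or.inl ⟨h, Or.inr (Or.inl rfl)⟩, h'⟩

/-- Merging the column `t` into the column `u`. -/
noncomputable def w2 {V : Type} (t u : V) (w : V → V → ℕ) (x y : V) : ℕ :=
  if y = t then 0 else if y = u then (if x = u then 0 else w x u + w x t) else w x y

lemma sum_merge {V : Type} [Fintype V] (t u : V) (hut : u ≠ t) (f g : V → ℤ)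
    (ht : g t = 0) (hu : g u = f u + f t) (h : ∀ y, y ≠ t → y ≠ u → g y = f y) :
    ∑ y, g y = ∑ y, f y := by
  have h1 : ∀ y, g y = f y + (if y = u then f t else 0) - (if y = t then f t else 0) := by
    intro y
    by_cases hyt : y = t
    · subst hyt
      rw [ht, if_neg hut.symm, if_pos rfl]
      ring
    · by_cases hyu : y = u
      · subst hyu
        rw [hu, if_pos rfl, if_neg hyt]
        ring
      · rw [h y hyt hyu, if_neg hyu, if_neg hyt]
        ring
  rw [Finset.sum_congr rfl fun y _ => h1 y, Finset.sum_sub_distrib, Finset.sum_add_distrib]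
  simp

lemma sum_drop {V : Type} [Fintype V] (t : V) (f g : V → ℤ)
    (ht : g t = 0) (h : ∀ y, y ≠ t → g y = f y) :
    ∑ y, g y = ∑ y, f y - f t := by
  have h1 : ∀ y, g y = f y - (if y = t then f t else 0) := by
    intro y
    by_cases hyt : y = t
    · subst hyt
      rw [ht, if_pos rfl]
      ring
    · rw [h y hyt, if_neg hyt]
      ring
  rw [Finset.sum_congr rfl fun y _ => h1 y, Finset.sum_sub_distrib]
  simp

theorem tie_step {V : Type} [Fintype V] {k : ℤ} {H : SimpleGraph V} {P L : Finset V}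
    {w : V → V → ℕ} {κ : V → ℤ} (hH : ¬ Minor H K33) (inst : Inst k H P L w κ) (t u z : V)
    (htP : t ∉ P) (hu : u ∈ P) (htL : t ∉ L) (huL : u ∉ L) (hzP : z ∉ P)
    (hz0 : ∀ x, w x z = 0) (hzu : H.Adj z u) (hzt : H.Adj z t)
    (hsl : 4 * (2509920 : ℤ) * ∑ y, (w u y : ℤ) + 8 * (2509920 : ℤ) * k ≤ (6450891168153600 : ℤ) * (2 * κ u - ∑ y, (w u y : ℤ) - 1)) :
    ∃ (H' : SimpleGraph V) (w' : V → V → ℕ) (κ' : V → ℤ), ¬ Minor H' K33 ∧
      Inst k H' P (insert u L) w' κ' ∧
      ∀ c : V → Bool, (∀ x ∈ P, ∑ y, (if c y = c x then (w' x y : ℤ) else 0) ≤ κ' x) →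
        ∃ c' : V → Bool, c' u = c' t ∧
          ∀ x ∈ P, ∑ y, (if c' y = c' x then (w x y : ℤ) else 0) ≤ κ x := by
  have hut : u ≠ t := fun h => htP (h ▸ hu)
  have huu : w u u = 0 := by
    by_contra h
    exact (inst.adj u u (Nat.pos_of_ne_zero h)).2.ne rfl
  refine ⟨ctr H t u z, w2 t u w, fun x => if x = u then κ u - w u t else κ x, ?_, ?_, ?_⟩
  · exact fun h => hH ((minor_ctr H t u z hut hzu hzt).trans h)
  · have hT1 : ∀ x, x ≠ u → ∑ y, (w2 t u w x y : ℤ) = ∑ y, (w x y : ℤ) := by
      intro x hxu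
      apply sum_merge t u hut
      · simp [w2]
      · simp [w2, hxu, hut]
      · intro y h1 h2
        simp [w2, h1, h2]
    have hT2 : ∑ y, (w2 t u w u y : ℤ) = ∑ y, (w u y : ℤ) - w u t := by
      apply sum_drop t
      · simp [w2]
      · intro y h1
        by_cases h2 : y = u
        · subst h2
          simp [w2, h1, huu]
        · simp [w2, h1, h2]
    constructor
    · intro x y h
      have hyt : y ≠ t := by
        rintro rfl
        simp [w2] at h
      by_cases hyu : y = u
      · subst hyu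
        have hxy : x ≠ y := by
          rintro rfl
          simp [w2, hyt] at h
        simp only [w2, hyt, hxy, if_false, if_true] at h
        have hor : 0 < w x y ∨ 0 < w x t := by omega
        have hxP : x ∈ P := by
          rcases hor with h | h
          · exact (inst.adj _ _ h).1
          · exact (inst.adj _ _ h).1
        refine ⟨hxP, hxy, fun h => htP (h ▸ hxP), fun h => hzP (h ▸ hxP), hyt, hzu.ne', ?_⟩
        rcases hor with h | h
        · exact Or.inl (inst.adj _ _ h).2
        · exact Or.inr (Or.inr ⟨rfl, (inst.adj _ _ h).2⟩)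
      · simp only [w2, hyt, hyu, if_false] at h
        obtain ⟨h1, h2⟩ := inst.adj x y h
        refine ⟨h1, h2.ne, fun h => htP (h ▸ h1), fun h => hzP (h ▸ h1), hyt, ?_, Or.inl h2⟩
        rintro rfl
        rw [hz0 x] at h
        exact lt_irrefl _ h
    · intro x y
      unfold w2
      split_ifs
      · omega
      · omega
      · have h1 := inst.le1 x u huL
        have h2 := inst.le1 x t htL
        omega
      · exact inst.le2 x y
    · intro x y hy
      rw [mem_insert, not_or] at hy
      unfold w2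
      split_ifs with h1 h2 h3
      · omega
      · omega
      · exact absurd h2 hy.1
      · exact inst.le1 x y hy.2
    · intro x hx
      by_cases hxu : x = u
      · subst hxu
        rw [hT2]
        have := inst.tot x hx
        have h0 : (0 : ℤ) ≤ w x t := Int.natCast_nonneg _
        linarith
      · rw [hT1 x hxu]
        exact inst.tot x hx
    · intro x hx hxL
      rw [mem_insert, not_or] at hxL
      rw [hT1 x hxL.1, if_neg hxL.1]
      exact inst.tA x hx hxL.2
    · intro x hx hxL
      by_cases hxu : x = u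
      · subst hxu
        rw [hT2, if_pos rfl]
        have h0 : (0 : ℤ) ≤ w x t := Int.natCast_nonneg _
        have h1 : (w x t : ℤ) ≤ 1 := by exact_mod_cast inst.le1 x t htL
        linarith
      · rw [hT1 x hxu, if_neg hxu]
        exact inst.tL x hx ((mem_insert.1 hxL).resolve_left hxu)
  · intro c hc
    refine ⟨fun y => if y = t then c u else c y, ?_, ?_⟩
    · simp [hut]
    · intro x hx
      have hxt : x ≠ t := fun h => htP (h ▸ hx)
      have h1 : (∑ y, if c y = c x then (w2 t u w x y : ℤ) else 0) ≤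
        if x = u then κ u - w u t else κ x := hc x hx
      simp only [hxt, if_false]
      by_cases hxu : x = u
      · subst hxu
        rw [if_pos rfl] at h1
        have h2 : ∑ y, (if c y = c x then (w2 t x w x y : ℤ) else 0) =
            ∑ y, (if (if y = t then c x else c y) = c x then (w x y : ℤ) else 0) -
              (if (if t = t then c x else c t) = c x then (w x t : ℤ) else 0) := by
          apply sum_drop t
          · simp [w2]
          · intro y hyt
            by_cases hyx : y = x
            · subst hyx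
              simp [w2, hyt, huu]
            · simp [w2, hyt, hyx]
        rw [h2] at h1
        simp only [if_true] at h1
        linarith
      · rw [if_neg hxu] at h1
        have h2 : ∑ y, (if c y = c x then (w2 t u w x y : ℤ) else 0) =
            ∑ y, (if (if y = t then c u else c y) = c x then (w x y : ℤ) else 0) := by
          apply sum_merge t u hut
          · simp [w2]
          · by_cases hcc : c u = c x
            · simp [w2, hut, hxu, hcc]
            · simp [hut, hcc]
          · intro y hyt hyu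
            simp [w2, hyt, hyu]
        rw [h2] at h1
        exact h1

end Pool.Agent.H51
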