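import Mathlib
import Pool.Agent.H51.Tie

set_option autoImplicit false

/-! The main induction. -/

namespace Pool.Agent.H51

open Finset Classical


lemma t_notMem_cont {V : Type} [Fintype V] (P : Finset V) (R : V → V → Prop) (t : V) :
    t ∉ cont P R t := by
  intro h
  exact (mem_filter.1 h).2.1 rfl

lemma sum_m_le {V : Type} [Fintype V] (P : Finset V) (w : V → V → ℕ) (t : V) (S : Finset V) :
    ∑ u ∈ S, ∑ y ∈ srv P (Rel w) t u, (w t y : ℤ) ≤ ∑ y, (w t y : ℤ) := by
  rw [← Finset.sum_biUnion]
  · exact Finset.sum_le_sum_of_subset_of_nonneg (subset_univ _)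
      (fun _ _ _ => Int.natCast_nonneg _)
  · intro u _ v _ huv
    rw [Function.onFun, Finset.disjoint_left]
    intro y hy hy'
    exact huv (srv_unique hy hy')

lemma heavy {V : Type} (U : Finset V) (m : V → ℤ) (D : ℤ) (hD : (U.card : ℤ) ≤ D)
    (hM : 0 < ∑ u ∈ U, m u) : ∃ u ∈ U, ∑ u ∈ U, m u ≤ D * m u := by
  by_contra hcon
  push Not at hcon
  have hD0 : 0 < D := by
    by_contra h
    have : U.card = 0 := by omega
    rw [Finset.card_eq_zero] at this
    subst this
    simp at hM
  have h1 : ∑ u ∈ U, D * m u ≤ ∑ u ∈ U, (∑ v ∈ U, m v - 1) :=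
    Finset.sum_le_sum fun u hu => by
      have := hcon u hu
      omega
  rw [← Finset.mul_sum, Finset.sum_const, nsmul_eq_mul] at h1
  have h2 : (U.card : ℤ) * (∑ v ∈ U, m v - 1) ≤ D * (∑ v ∈ U, m v - 1) :=
    mul_le_mul_of_nonneg_right hD (by omega)
  have h3 : D * (∑ v ∈ U, m v - 1) = D * ∑ v ∈ U, m v - D := by ring
  omega

theorem main_aux (k : ℤ) (hk : 10 ^ 30 ≤ k) {V : Type} [Fintype V] : ∀ (n : ℕ)
    (H : SimpleGraph V) (P L : Finset V) (w : V → V → ℕ) (κ : V → ℤ), P.card = n →
    ¬ Minor H K33 → Inst k H P L w κ →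
    ∃ c : V → Bool, ∀ x ∈ P, ∑ y, (if c y = c x then (w x y : ℤ) else 0) ≤ κ x := by
  intro n
  induction n with
  | zero =>
    intro H P L w κ hn _ _
    rw [Finset.card_eq_zero] at hn
    subst hn
    exact ⟨fun _ => true, fun x hx => absurd hx (notMem_empty x)⟩
  | succ n ih =>
    intro H P L w κ hn hH inst
    have hP : P.Nonempty := by
      rw [← Finset.card_pos]; omega
    obtain ⟨t, ht, d1, d2, d3⟩ := exists_low hH P hP (Rel w)
      (fun x _ y h => (inst.adj x y h).2)
    have hcard : (P.erase t).card = n := by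
      rw [card_erase_of_mem ht]; omega
    have e1 : ((P.filter (fun u => Rel w t u)).card : ℤ) ≤ (2509920 : ℤ) := by
      unfold D0 at d1
      exact_mod_cast d1
    have e2 : ((thr P (Rel w) t).card : ℤ) ≤ (2509920 : ℤ) := by
      unfold D0 at d2
      unfold thr
      exact_mod_cast d2
    have e3 : ((cont P (Rel w) t).card : ℤ) ≤ (2509920 : ℤ) := by
      unfold D0 at d3
      unfold cont
      exact_mod_cast d3
    set U := cont P (Rel w) t with hU
    have htU : t ∉ U := t_notMem_cont P (Rel w) t
    have hUP : ∀ u ∈ U, u ∈ P ∧ u ≠ t := by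
      intro u hu
      exact ⟨(mem_filter.1 hu).1, (mem_filter.1 hu).2.1⟩
    have hm0 : ∀ u, 0 ≤ ∑ y ∈ srv P (Rel w) t u, (w t y : ℤ) := fun u =>
      Finset.sum_nonneg fun y _ => Int.natCast_nonneg _
    have f1 := sum_m_le P w t (insert t U)
    rw [Finset.sum_insert htU] at f1
    have f2 := weight_le P t ht w inst.le2 (fun y => (w t y : ℤ)) (fun y => le_rfl)
      (fun u y => if y ∈ srv P (Rel w) t u then (w t y : ℤ) else 0)
      (fun u y => by split_ifs <;> simp) (fun u _ y hy => by simp [hy])
    simp only [← sum_mem_eq] at f2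
    rw [Finset.sum_insert htU] at f2
    set T := ∑ y, (w t y : ℤ) with hT
    set Z := ∑ y ∈ srv P (Rel w) t t, (w t y : ℤ) with hZ
    set M := ∑ u ∈ U, ∑ y ∈ srv P (Rel w) t u, (w t y : ℤ) with hM
    have hZ0 : 0 ≤ Z := hm0 t
    have hM0 : 0 ≤ M := Finset.sum_nonneg fun u _ => hm0 u
    have hTk := inst.tot t ht
    rw [← hT] at hTk
    -- the free case
    have free : 24 * (2509920 : ℤ) * (6450891168153600 : ℤ) + ((6450891168153600 : ℤ) + 2) * M ≤ 2 * (6450891168153600 : ℤ) * κ t →
        ∃ c : V → Bool, ∀ x ∈ P, ∑ y, (if c y = c x then (w x y : ℤ) else 0) ≤ κ x := by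
      intro hfree
      obtain ⟨X, hX1, hX2, hX3, hX4⟩ := mid_step inst t ht (fun _ => 6450891168153602)
        (fun _ => by norm_num) (fun _ _ _ _ => by norm_num) (fun _ _ _ _ => by norm_num)
      obtain ⟨c', hc'⟩ := ih H (P.erase t) L _ _ hcard hH hX4
      apply finish inst t ht X c' hc'
      have g1 : ∑ u ∈ U, 2 * (6450891168153600 : ℤ) * (if c' u = c' t then (0 : ℤ) else
          ∑ y ∈ X u, (w t y : ℤ)) ≤
          ∑ u ∈ U, (((6450891168153600 : ℤ) + 2) * ∑ y ∈ srv P (Rel w) t u, (w t y : ℤ) + 16 * (6450891168153600 : ℤ)) := by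
        refine Finset.sum_le_sum fun u hu => ?_
        have h1 := hX2 u (hUP u hu).1
        have h2 := hm0 u
        split_ifs
        · linarith
        · push_cast at h1
          linarith
      rw [← Finset.mul_sum, Finset.sum_add_distrib, ← Finset.mul_sum, Finset.sum_const,
        nsmul_eq_mul, ← hM] at g1
      linarith
    by_cases htL : t ∈ L
    · apply free
      have h1 := inst.tL t ht htL
      rw [← hT] at h1
      norm_num at hk
      linarith
    · have h1 := inst.tA t ht htL
      rw [← hT] at h1
      obtain ⟨h1a, h1b⟩ := h1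
      norm_num at hk
      by_cases hsmall : 2 * T ≤ k - (6450891168153600 : ℤ) * (12 * (2509920 : ℤ) + 1)
      · apply free
        linarith
      by_cases hpriv : (6450891168153600 : ℤ) * (24 * (2509920 : ℤ) + 2) + 2 * M ≤ (6450891168153600 : ℤ) * Z
      · apply free
        linarith
      push Not at hsmall hpriv
      have hMk : k ≤ 8 * M := by
        by_contra hcon
        push Not at hcon
        linarith
      obtain ⟨u, hu, hheavy⟩ := heavy U (fun u => ∑ y ∈ srv P (Rel w) t u, (w t y : ℤ)) (2509920 : ℤ) e3
        (by rw [← hM]; linarith)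
      rw [← hM] at hheavy
      obtain ⟨huP, hut⟩ := hUP u hu
      have hue : u ∈ P.erase t := mem_erase.2 ⟨hut, huP⟩
      have hsplit : ∑ v ∈ U.erase u, ∑ y ∈ srv P (Rel w) t v, (w t y : ℤ) +
          ∑ y ∈ srv P (Rel w) t u, (w t y : ℤ) = M := Finset.sum_erase_add U _ hu
      set mu := ∑ y ∈ srv P (Rel w) t u, (w t y : ℤ) with hmu
      have hce : ((U.erase u).card : ℤ) ≤ (2509920 : ℤ) := by
        have := Finset.card_le_card (Finset.erase_subset u U)
        have h' : ((U.erase u).card : ℤ) ≤ (U.card : ℤ) := by exact_mod_cast this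
        linarith
      by_cases huL : u ∈ L
      · -- take
        obtain ⟨X, hX1, hX2, hX3, hX4⟩ := mid_step inst t ht
          (fun v => if v = u then 6450891158113920 else 6450891168153602)
          (fun v => by split_ifs <;> norm_num)
          (fun v _ _ hvL => by
            have : v ≠ u := fun h => hvL (h ▸ huL)
            simp [this])
          (fun v _ _ _ => by split_ifs <;> norm_num)
        obtain ⟨c', hc'⟩ := ih H (P.erase t) L _ _ hcard hH hX4
        apply finish inst t ht X c' hc'
        have g1 : ∑ v ∈ U.erase u, 2 * (6450891168153600 : ℤ) * (if c' v = c' t then (0 : ℤ) else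
            ∑ y ∈ X v, (w t y : ℤ)) ≤
            ∑ v ∈ U.erase u, (((6450891168153600 : ℤ) + 2) * ∑ y ∈ srv P (Rel w) t v, (w t y : ℤ) + 16 * (6450891168153600 : ℤ)) := by
          refine Finset.sum_le_sum fun v hv => ?_
          have h1 := hX2 v (hUP v (mem_of_mem_erase hv)).1
          rw [if_neg (ne_of_mem_erase hv)] at h1
          have h2 := hm0 v
          split_ifs
          · linarith
          · push_cast at h1
            linarith
        rw [← Finset.mul_sum, Finset.sum_add_distrib, ← Finset.mul_sum, Finset.sum_const,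
          nsmul_eq_mul] at g1
        have g2 : 2 * (6450891168153600 : ℤ) * (if c' u = c' t then (0 : ℤ) else ∑ y ∈ X u, (w t y : ℤ)) ≤
            ((6450891168153600 : ℤ) - 4 * (2509920 : ℤ)) * mu + 16 * (6450891168153600 : ℤ) := by
          have h1 := hX2 u huP
          rw [if_pos rfl, ← hmu] at h1
          have h2 := hm0 u
          rw [← hmu] at h2
          split_ifs
          · linarith
          · push_cast at h1
            linarith
        have g3 := Finset.sum_erase_add U (fun v => if c' v = c' t then (0 : ℤ) else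
            ∑ y ∈ X v, (w t y : ℤ)) hu
        rw [← g3]
        linarith
      · -- tie
        have hne : (srv P (Rel w) t u).Nonempty := by
          rw [Finset.nonempty_iff_ne_empty]
          intro h
          rw [h, Finset.sum_empty] at hmu
          rw [hmu] at hheavy
          linarith
        obtain ⟨z, hz⟩ := hne
        have hz' := mem_srv.1 hz
        have hzu : H.Adj z u := by
          have : u ∈ claim P (Rel w) z := by rw [hz'.2]; simp
          exact (inst.adj u z (mem_claim.1 this).2).2.symm
        have hzt : H.Adj z t := by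
          have : t ∈ claim P (Rel w) z := by rw [hz'.2]; simp
          exact (inst.adj t z (mem_claim.1 this).2).2.symm
        obtain ⟨X, hX1, hX2, hX3, hX4⟩ := mid_step inst t ht
          (fun v => if v = u then 12901782336307200 else 6450891168153602)
          (fun v => by split_ifs <;> norm_num)
          (fun v _ _ _ => by split_ifs <;> norm_num)
          (fun v _ _ _ => by split_ifs <;> norm_num)
        have hβ : mu ≤ 2 * ∑ y ∈ srv P (Rel w) t u, (w u y : ℤ) := by
          rw [hmu, Finset.mul_sum]
          refine Finset.sum_le_sum fun y hy => ?_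
          have h1 : u ∈ claim P (Rel w) y := by rw [(mem_srv.1 hy).2]; simp
          have h2 : 0 < w u y := (mem_claim.1 h1).2
          have h3 := inst.le2 t y
          have h4 : w t y ≤ 2 * w u y := by omega
          exact_mod_cast h4
        have hX3u := hX3 u huP
        rw [if_pos rfl] at hX3u
        have hsd : ∑ y ∈ srv P (Rel w) t u \ X u, (w u y : ℤ) =
            ∑ y ∈ srv P (Rel w) t u, (w u y : ℤ) - ∑ y ∈ X u, (w u y : ℤ) := by
          rw [eq_sub_iff_add_eq]
          exact Finset.sum_sdiff (hX1 u)
        have hs1 := sum_w1 P t w u huP hut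
        have hAu := inst.tA u huP huL
        have hTu := inst.tot u huP
        obtain ⟨H', w', κ', hH', inst', hback⟩ := tie_step (t := t) (u := u) (z := z) hH hX4
          (notMem_erase t P) hue htL huL
          (fun h => hz'.1 (mem_of_mem_erase h))
          (fun x => by
            unfold w1
            rw [if_pos (Or.inr ⟨u, huP, hz⟩)])
          hzu hzt (by
            simp only [hsd]
            push_cast at hX3u
            linarith)
        obtain ⟨c, hc⟩ := ih H' (P.erase t) (insert u L) w' κ' hcard hH' inst'
        obtain ⟨c', hcut, hc'⟩ := hback c hc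
        apply finish inst t ht X c' hc'
        have g1 : ∑ v ∈ U.erase u, 2 * (6450891168153600 : ℤ) * (if c' v = c' t then (0 : ℤ) else
            ∑ y ∈ X v, (w t y : ℤ)) ≤
            ∑ v ∈ U.erase u, (((6450891168153600 : ℤ) + 2) * ∑ y ∈ srv P (Rel w) t v, (w t y : ℤ) + 16 * (6450891168153600 : ℤ)) := by
          refine Finset.sum_le_sum fun v hv => ?_
          have h1 := hX2 v (hUP v (mem_of_mem_erase hv)).1
          rw [if_neg (ne_of_mem_erase hv)] at h1
          have h2 := hm0 v
          split_ifs
          · linarith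
          · push_cast at h1
            linarith
        rw [← Finset.mul_sum, Finset.sum_add_distrib, ← Finset.mul_sum, Finset.sum_const,
          nsmul_eq_mul] at g1
        have g3 := Finset.sum_erase_add U (fun v => if c' v = c' t then (0 : ℤ) else
            ∑ y ∈ X v, (w t y : ℤ)) hu
        rw [if_pos hcut] at g3
        rw [← g3]
        linarith

end Pool.Agent.H51
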