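import Mathlib

set_option autoImplicit false

/-! Non-planarity of `K_{3,3}` in a weak form: there are no nine paths from three points to three
points such that paths with no common end index are disjoint. -/

namespace Pool.Agent.H51

open Finset Real

noncomputable section

/-- Total angle increment of `g` seen from `v` over the grid of mesh `1/N`. -/
def angInc (N : ℕ) (g : ℝ → ℂ) (v : ℂ) : ℝ :=
  ∑ i ∈ range N, Complex.arg ((g ((i + 1 : ℕ) / N) - v) / (g ((i : ℕ) / N) - v))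

lemma angInc_coe (N : ℕ) (hN : 0 < N) (g : ℝ → ℂ) (v : ℂ) (hv : ∀ s, g s ≠ v) :
    ((angInc N g v : ℝ) : Real.Angle) =
      (Complex.arg (g 1 - v) : Real.Angle) - (Complex.arg (g 0 - v) : Real.Angle) := by
  have hN' : (N : ℝ) ≠ 0 := by exact_mod_cast hN.ne'
  have h1 : ∀ i : ℕ, ((Complex.arg ((g ((i + 1 : ℕ) / N) - v) / (g ((i : ℕ) / N) - v)) : ℝ) :
      Real.Angle) = (Complex.arg (g ((i + 1 : ℕ) / N) - v) : Real.Angle) -
        (Complex.arg (g ((i : ℕ) / N) - v) : Real.Angle) := by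
    intro i
    exact Complex.arg_div_coe_angle (sub_ne_zero.2 (hv _)) (sub_ne_zero.2 (hv _))
  unfold angInc
  have h2 : ((∑ i ∈ range N, Complex.arg ((g ((i + 1 : ℕ) / N) - v) / (g ((i : ℕ) / N) - v)) : ℝ) :
      Real.Angle) = ∑ i ∈ range N, ((Complex.arg ((g ((i + 1 : ℕ) / N) - v) /
        (g ((i : ℕ) / N) - v)) : ℝ) : Real.Angle) := by
    exact map_sum Real.Angle.coeHom _ _
  rw [h2, Finset.sum_congr rfl (fun i _ => h1 i),
    Finset.sum_range_sub (fun i : ℕ => (Complex.arg (g ((i : ℕ) / N) - v) : Real.Angle))]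
  simp [hN']

lemma abs_arg_lt {z w : ℂ} (hz : z ≠ 0) (h : ‖w - z‖ < (1 / 2) * ‖z‖) :
    |Complex.arg (w / z)| < π / 2 := by
  rw [Complex.abs_arg_lt_pi_div_two_iff]
  left
  have hz' : 0 < ‖z‖ := norm_pos_iff.2 hz
  have h1 : ‖w / z - 1‖ < 1 / 2 := by
    have : w / z - 1 = (w - z) / z := by field_simp
    rw [this, norm_div, div_lt_iff₀ hz']
    exact h
  have h2 : |(w / z - 1).re| ≤ ‖w / z - 1‖ := Complex.abs_re_le_norm _
  have h3 : (w / z - 1).re = (w / z).re - 1 := by simp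
  rw [h3] at h2
  have h4 := (abs_le.1 h2).1
  linarith

lemma real_eq_zero_of_angle {x : ℝ} (hx : |x| < 2 * π) (h : (x : Real.Angle) = 0) : x = 0 := by
  rw [Real.Angle.coe_eq_zero_iff] at h
  obtain ⟨n, hn⟩ := h
  have hn' : (n : ℝ) * (2 * π) = x := by simpa using hn
  have hpi := Real.pi_pos
  have h1 : |(n : ℝ)| < 1 := by
    have h2 : |(n : ℝ)| * (2 * π) < 1 * (2 * π) := by
      have h3 : |(n : ℝ) * (2 * π)| = |(n : ℝ)| * (2 * π) := by
        rw [abs_mul, abs_of_pos (by linarith : (0 : ℝ) < 2 * π)]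
      rw [← h3, hn', one_mul]
      exact hx
    exact lt_of_mul_lt_mul_right h2 (by linarith)
  have h2 : |n| < 1 := by exact_mod_cast h1
  have h3 : n = 0 := by rwa [Int.abs_lt_one_iff] at h2
  rw [← hn', h3]
  simp

/-- The four increments around a small square add up to zero. -/
lemma square_zero {z00 z10 z11 z01 : ℂ} (h00 : z00 ≠ 0) (h10 : z10 ≠ 0) (h11 : z11 ≠ 0)
    (h01 : z01 ≠ 0) (e1 : ‖z10 - z00‖ < (1 / 2) * ‖z00‖) (e2 : ‖z11 - z10‖ < (1 / 2) * ‖z10‖)
    (e3 : ‖z11 - z01‖ < (1 / 2) * ‖z01‖) (e4 : ‖z01 - z00‖ < (1 / 2) * ‖z00‖) :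
    Complex.arg (z10 / z00) - Complex.arg (z11 / z01) =
      Complex.arg (z01 / z00) - Complex.arg (z11 / z10) := by
  have a1 := abs_lt.1 (abs_arg_lt h00 e1)
  have a2 := abs_lt.1 (abs_arg_lt h10 e2)
  have a3 := abs_lt.1 (abs_arg_lt h01 e3)
  have a4 := abs_lt.1 (abs_arg_lt h00 e4)
  have h : Complex.arg (z10 / z00) - Complex.arg (z11 / z01) -
      (Complex.arg (z01 / z00) - Complex.arg (z11 / z10)) = 0 := by
    apply real_eq_zero_of_angle
    · rw [abs_lt]
      constructor <;> linarith [a1.1, a1.2, a2.1, a2.2, a3.1, a3.2, a4.1, a4.2]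
    · rw [Real.Angle.coe_sub, Real.Angle.coe_sub, Real.Angle.coe_sub]
      rw [Complex.arg_div_coe_angle h10 h00, Complex.arg_div_coe_angle h11 h01,
        Complex.arg_div_coe_angle h01 h00, Complex.arg_div_coe_angle h11 h10]
      abel
  linarith

/-- The key identity for two disjoint paths. -/
lemma key_identity (N : ℕ) (hN : 0 < N) (g f : ℝ → ℂ)
    (hne : ∀ s t, g s ≠ f t)
    (hg : ∀ s s' t : ℝ, |s' - s| ≤ 1 / (N : ℝ) → ‖g s' - g s‖ < (1 / 2) * ‖g s - f t‖)
    (hf : ∀ s s' t : ℝ, |s' - s| ≤ 1 / (N : ℝ) → ‖f s' - f s‖ < (1 / 2) * ‖f s - g t‖) :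
    angInc N g (f 0) - angInc N g (f 1) = angInc N f (g 0) - angInc N f (g 1) := by
  have hN' : (N : ℝ) ≠ 0 := by exact_mod_cast hN.ne'
  have hstep : ∀ i : ℕ, |(((i + 1 : ℕ) : ℝ) / N) - ((i : ℕ) : ℝ) / N| ≤ 1 / N := by
    intro i
    have : (((i + 1 : ℕ) : ℝ) / N) - ((i : ℕ) : ℝ) / N = 1 / N := by
      push_cast; field_simp; ring
    rw [this, abs_of_nonneg (by positivity)]
  let h : ℕ → ℕ → ℝ := fun i j =>
    Complex.arg ((g ((i + 1 : ℕ) / N) - f ((j : ℕ) / N)) / (g ((i : ℕ) / N) - f ((j : ℕ) / N)))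
  let v : ℕ → ℕ → ℝ := fun i j =>
    Complex.arg ((f ((j + 1 : ℕ) / N) - g ((i : ℕ) / N)) / (f ((j : ℕ) / N) - g ((i : ℕ) / N)))
  have hsq : ∀ i j, h i j - h i (j + 1) = v i j - v (i + 1) j := by
    intro i j
    have hv1 : v i j = Complex.arg ((g ((i : ℕ) / N) - f ((j + 1 : ℕ) / N)) /
        (g ((i : ℕ) / N) - f ((j : ℕ) / N))) := by
      simp only [v]
      rw [← neg_sub (g ((i : ℕ) / N)) (f ((j + 1 : ℕ) / N)),
        ← neg_sub (g ((i : ℕ) / N)) (f ((j : ℕ) / N)), neg_div_neg_eq]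
    have hv2 : v (i + 1) j = Complex.arg ((g ((i + 1 : ℕ) / N) - f ((j + 1 : ℕ) / N)) /
        (g ((i + 1 : ℕ) / N) - f ((j : ℕ) / N))) := by
      simp only [v]
      rw [← neg_sub (g ((i + 1 : ℕ) / N)) (f ((j + 1 : ℕ) / N)),
        ← neg_sub (g ((i + 1 : ℕ) / N)) (f ((j : ℕ) / N)), neg_div_neg_eq]
    rw [hv1, hv2]
    apply square_zero
    · exact sub_ne_zero.2 (hne _ _)
    · exact sub_ne_zero.2 (hne _ _)
    · exact sub_ne_zero.2 (hne _ _)
    · exact sub_ne_zero.2 (hne _ _)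
    · rw [sub_sub_sub_cancel_right]
      exact hg _ _ _ (hstep i)
    · rw [sub_sub_sub_cancel_left, norm_sub_rev, norm_sub_rev (g _) (f _)]
      exact hf _ _ _ (hstep j)
    · rw [sub_sub_sub_cancel_right]
      exact hg _ _ _ (hstep i)
    · rw [sub_sub_sub_cancel_left, norm_sub_rev, norm_sub_rev (g _) (f _)]
      exact hf _ _ _ (hstep j)
  have hrow : ∀ j, (∑ i ∈ range N, h i j) - (∑ i ∈ range N, h i (j + 1)) = v 0 j - v N j := by
    intro j
    rw [← Finset.sum_sub_distrib, Finset.sum_congr rfl (fun i _ => hsq i j),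
      Finset.sum_range_sub' (fun i => v i j)]
  have htot : (∑ i ∈ range N, h i 0) - (∑ i ∈ range N, h i N) =
      (∑ j ∈ range N, v 0 j) - (∑ j ∈ range N, v N j) := by
    have t1 := Finset.sum_range_sub' (fun j => ∑ i ∈ range N, h i j) N
    have t2 : ∑ j ∈ range N, ((∑ i ∈ range N, h i j) - (∑ i ∈ range N, h i (j + 1))) =
        ∑ j ∈ range N, (v 0 j - v N j) := Finset.sum_congr rfl (fun j _ => hrow j)
    rw [← t1, t2, Finset.sum_sub_distrib]
  have e0 : ((0 : ℕ) : ℝ) / N = 0 := by simp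
  have e1 : ((N : ℕ) : ℝ) / N = 1 := div_self hN'
  simp only [h, v, e0, e1] at htot
  unfold angInc
  exact htot

/-- Uniform step size for a finite family of paths. -/
lemma exists_step (ι : Type) [Finite ι] (g : ι → ℝ → ℂ) (R : ι → ι → Prop)
    (hu : ∀ e, UniformContinuous (g e))
    (hδ : ∀ e f, R e f → ∃ δ > 0, ∀ s t, δ ≤ ‖g e s - g f t‖) :
    ∃ N : ℕ, 0 < N ∧ ∀ e f, R e f → ∀ s s' t : ℝ, |s' - s| ≤ 1 / (N : ℝ) →
      ‖g e s' - g e s‖ < (1 / 2) * ‖g e s - g f t‖ := by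
  classical
  -- for each pair a threshold
  have h1 : ∀ p : ι × ι, ∃ M : ℕ, 0 < M ∧ ∀ N : ℕ, M ≤ N → R p.1 p.2 → ∀ s s' t : ℝ,
      |s' - s| ≤ 1 / (N : ℝ) → ‖g p.1 s' - g p.1 s‖ < (1 / 2) * ‖g p.1 s - g p.2 t‖ := by
    intro p
    by_cases hR : R p.1 p.2
    · obtain ⟨δ, hδ0, hδ1⟩ := hδ p.1 p.2 hR
      have := Metric.uniformContinuous_iff.1 (hu p.1) (δ / 2) (by linarith)
      obtain ⟨η, hη0, hη⟩ := this
      obtain ⟨M, hM⟩ := exists_nat_one_div_lt hη0
      refine ⟨M + 1, Nat.succ_pos M, ?_⟩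
      intro N hN _ s s' t hs
      have hN0 : (0 : ℝ) < N := by
        have : 0 < N := by omega
        exact_mod_cast this
      have h2 : (1 : ℝ) / N ≤ 1 / (M + 1) := by
        apply one_div_le_one_div_of_le
        · positivity
        · exact_mod_cast hN
      have h3 : dist s' s < η := by
        rw [Real.dist_eq]; linarith
      have h4 := hη h3
      rw [dist_eq_norm] at h4
      have h5 := hδ1 s t
      linarith
    · exact ⟨1, one_pos, fun N _ h => absurd h hR⟩
  choose M hM0 hM using h1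
  have : Fintype ι := Fintype.ofFinite ι
  refine ⟨(∑ p : ι × ι, M p) + 1, Nat.succ_pos _, ?_⟩
  intro e f hR
  apply hM (e, f) _ _ hR
  have : M (e, f) ≤ ∑ p : ι × ι, M p :=
    Finset.single_le_sum (f := M) (fun _ _ => Nat.zero_le _) (mem_univ (e, f))
  omega

/-- Parity contradiction. -/
lemma parity_contradiction (σ : Fin 3 → Fin 3 → ℤ) (A B : Fin 3 → Fin 3 → ℤ)
    (N1 N2 : Fin 3 → Fin 3 → Fin 3 → ℤ)
    (hA : ∀ i k, i ≠ k → A i k % 2 = 1)
    (hB : ∀ j l, B l j = - B j l)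
    (hE : ∀ i j k l, i ≠ k → j ≠ l →
      σ j k - σ l i - A i k - B j l +
        2 * (N1 i j k - N2 i j l - N1 k l i + N2 k l j) = 0) : False := by
  have a01 := hA 0 1 (by decide)
  have a02 := hA 0 2 (by decide)
  have a12 := hA 1 2 (by decide)
  have b01 := hB 0 1
  have b02 := hB 0 2
  have b12 := hB 1 2
  have e1 := hE 0 0 1 1 (by decide) (by decide)
  have e2 := hE 0 1 1 0 (by decide) (by decide)
  have e3 := hE 0 0 1 2 (by decide) (by decide)
  have e4 := hE 0 2 1 0 (by decide) (by decide)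
  have e5 := hE 0 1 1 2 (by decide) (by decide)
  have e6 := hE 0 2 1 1 (by decide) (by decide)
  have f1 := hE 0 0 2 1 (by decide) (by decide)
  have f2 := hE 0 1 2 0 (by decide) (by decide)
  have f3 := hE 0 0 2 2 (by decide) (by decide)
  have f4 := hE 0 2 2 0 (by decide) (by decide)
  have f5 := hE 0 1 2 2 (by decide) (by decide)
  have f6 := hE 0 2 2 1 (by decide) (by decide)
  have g1 := hE 1 0 2 1 (by decide) (by decide)
  have g2 := hE 1 1 2 0 (by decide) (by decide)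
  have g3 := hE 1 0 2 2 (by decide) (by decide)
  have g4 := hE 1 2 2 0 (by decide) (by decide)
  have g5 := hE 1 1 2 2 (by decide) (by decide)
  have g6 := hE 1 2 2 1 (by decide) (by decide)
  clear hE hA hB
  omega

/-- There is no family of nine paths joining three points to three points in which paths
without common end index are disjoint. -/
theorem no_K33_paths (a b : Fin 3 → ℂ) (P : ∀ i j, Path (a i) (b j))
    (hd : ∀ i j k l, i ≠ k → j ≠ l → ∀ s t, P i j s ≠ P k l t) : False := by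
  classical
  let g : Fin 3 × Fin 3 → ℝ → ℂ := fun e => (P e.1 e.2).extend
  let R : Fin 3 × Fin 3 → Fin 3 × Fin 3 → Prop := fun e f => e.1 ≠ f.1 ∧ e.2 ≠ f.2
  have hg0 : ∀ e, g e 0 = a e.1 := fun e => by simp [g]
  have hg1 : ∀ e, g e 1 = b e.2 := fun e => by simp [g]
  have hval : ∀ e x, ∃ s : unitInterval, g e x = P e.1 e.2 s := by
    intro e x
    exact ⟨Set.projIcc 0 1 zero_le_one x, rfl⟩
  have hne : ∀ e f, R e f → ∀ s t, g e s ≠ g f t := by
    intro e f hR s t
    obtain ⟨s', hs'⟩ := hval e s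
    obtain ⟨t', ht'⟩ := hval f t
    rw [hs', ht']
    exact hd _ _ _ _ hR.1 hR.2 s' t'
  have hu : ∀ e, UniformContinuous (g e) := by
    intro e
    have h1 : UniformContinuous (P e.1 e.2) :=
      CompactSpace.uniformContinuous_of_continuous (P e.1 e.2).continuous
    have h2 : UniformContinuous (Set.projIcc (0 : ℝ) 1 zero_le_one) :=
      (LipschitzWith.projIcc zero_le_one).uniformContinuous
    exact h1.comp h2
  have hδ : ∀ e f, R e f → ∃ δ > 0, ∀ s t, δ ≤ ‖g e s - g f t‖ := by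
    intro e f hR
    have hc : Continuous fun x : unitInterval × unitInterval =>
        ‖P e.1 e.2 x.1 - P f.1 f.2 x.2‖ := by
      fun_prop
    obtain ⟨x, _, hx⟩ := isCompact_univ.exists_isMinOn (Set.univ_nonempty) hc.continuousOn
    refine ⟨‖P e.1 e.2 x.1 - P f.1 f.2 x.2‖, ?_, ?_⟩
    · rw [gt_iff_lt, norm_pos_iff, sub_ne_zero]
      exact hd _ _ _ _ hR.1 hR.2 _ _
    · intro s t
      obtain ⟨s', hs'⟩ := hval e s
      obtain ⟨t', ht'⟩ := hval f t
      rw [hs', ht']
      exact hx (Set.mem_univ (s', t'))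
  obtain ⟨N, hN, hstep⟩ := exists_step (Fin 3 × Fin 3) g R hu hδ
  have hsymm : ∀ e f, R e f → R f e := fun e f h => ⟨h.1.symm, h.2.symm⟩
  have hkey : ∀ e f, R e f → angInc N (g e) (a f.1) - angInc N (g e) (b f.2) =
      angInc N (g f) (a e.1) - angInc N (g f) (b e.2) := by
    intro e f hR
    have := key_identity N hN (g e) (g f) (hne e f hR)
      (fun s s' t h => hstep e f hR s s' t h) (fun s s' t h => hstep f e (hsymm e f hR) s s' t h)
    rwa [hg0, hg1, hg0, hg1] at this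
  -- existence of another index
  have hex : ∀ i : Fin 3, ∃ j, i ≠ j := by decide
  -- distinctness of points from paths
  have hva : ∀ e : Fin 3 × Fin 3, ∀ k, e.1 ≠ k → ∀ s, g e s ≠ a k := by
    intro e k hk s
    obtain ⟨l, hl⟩ := hex e.2
    have := hne e (k, l) ⟨hk, hl⟩ s 0
    rwa [hg0] at this
  have hvb : ∀ e : Fin 3 × Fin 3, ∀ l, e.2 ≠ l → ∀ s, g e s ≠ b l := by
    intro e l hl s
    obtain ⟨k, hk⟩ := hex e.1
    have := hne e (k, l) ⟨hk, hl⟩ s 1
    rwa [hg1] at this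
  have hab : ∀ i j, a i ≠ b j := by
    intro i j
    obtain ⟨l, hl⟩ := hex j
    have := hvb (i, l) j hl.symm 0
    rwa [hg0] at this
  have haa : ∀ i k, i ≠ k → a i ≠ a k := by
    intro i k h
    have := hva (i, 0) k h 0
    rwa [hg0] at this
  have hbb : ∀ j l, j ≠ l → b j ≠ b l := by
    intro j l h
    have := hvb (0, j) l h 1
    rwa [hg1] at this
  -- integers
  have hint : ∀ (e : Fin 3 × Fin 3) (v : ℂ), (∀ s, g e s ≠ v) → ∃ n : ℤ, angInc N (g e) v =
      Complex.arg (b e.2 - v) - Complex.arg (a e.1 - v) + 2 * π * n := by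
    intro e v hv
    have h1 := angInc_coe N hN (g e) v hv
    rw [hg0, hg1, ← Real.Angle.coe_sub, Real.Angle.angle_eq_iff_two_pi_dvd_sub] at h1
    obtain ⟨n, hn⟩ := h1
    exact ⟨n, by linarith⟩
  have hodd : ∀ x y : ℂ, x ≠ y → ∃ m : ℤ, m % 2 = 1 ∧
      Complex.arg (x - y) - Complex.arg (y - x) = π * m := by
    intro x y hxy
    have h1 : ((Complex.arg (x - y) : ℝ) : Real.Angle) =
        ((Complex.arg (y - x) : ℝ) : Real.Angle) + (π : Real.Angle) := by
      rw [← neg_sub y x]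
      exact Complex.arg_neg_coe_angle (sub_ne_zero.2 hxy.symm)
    rw [← Real.Angle.coe_add, Real.Angle.angle_eq_iff_two_pi_dvd_sub] at h1
    obtain ⟨n, hn⟩ := h1
    refine ⟨2 * n + 1, by omega, ?_⟩
    push_cast
    linarith
  -- choose integers
  have c1 : ∀ j k, ∃ m : ℤ, Complex.arg (b j - a k) - Complex.arg (a k - b j) = π * m := by
    intro j k
    obtain ⟨m, _, hm⟩ := hodd (b j) (a k) (hab k j).symm
    exact ⟨m, hm⟩
  choose σ hσ using c1
  have c2 : ∀ i k, ∃ m : ℤ, (i ≠ k → m % 2 = 1) ∧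
      Complex.arg (a i - a k) - Complex.arg (a k - a i) = π * m := by
    intro i k
    by_cases h : i = k
    · subst h
      exact ⟨0, fun h => absurd rfl h, by simp⟩
    · obtain ⟨m, hm1, hm⟩ := hodd (a i) (a k) (haa i k h)
      exact ⟨m, fun _ => hm1, hm⟩
  choose A hA using c2
  have c3 : ∀ j l, ∃ m : ℤ, Complex.arg (b j - b l) - Complex.arg (b l - b j) = π * m := by
    intro j l
    by_cases h : j = l
    · subst h
      exact ⟨0, by simp⟩
    · obtain ⟨m, _, hm⟩ := hodd (b j) (b l) (hbb j l h)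
      exact ⟨m, hm⟩
  choose B hB using c3
  have c4 : ∀ i j k, ∃ n : ℤ, i ≠ k → angInc N (g (i, j)) (a k) =
      Complex.arg (b j - a k) - Complex.arg (a i - a k) + 2 * π * n := by
    intro i j k
    by_cases h : i = k
    · exact ⟨0, fun h' => absurd h h'⟩
    · obtain ⟨n, hn⟩ := hint (i, j) (a k) (hva (i, j) k h)
      exact ⟨n, fun _ => hn⟩
  choose N1 hN1 using c4
  have c5 : ∀ i j l, ∃ n : ℤ, j ≠ l → angInc N (g (i, j)) (b l) =
      Complex.arg (b j - b l) - Complex.arg (a i - b l) + 2 * π * n := by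
    intro i j l
    by_cases h : j = l
    · exact ⟨0, fun h' => absurd h h'⟩
    · obtain ⟨n, hn⟩ := hint (i, j) (b l) (hvb (i, j) l h)
      exact ⟨n, fun _ => hn⟩
  choose N2 hN2 using c5
  have hpi := Real.pi_pos
  refine parity_contradiction σ A B N1 N2 (fun i k h => (hA i k).1 h) ?_ ?_
  · intro j l
    have h1 := hB j l
    have h2 := hB l j
    have h3 : π * ((B l j : ℝ) + (B j l : ℝ)) = 0 := by linarith
    have h4 : (B l j : ℝ) + (B j l : ℝ) = 0 := by
      rcases mul_eq_zero.1 h3 with h | h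
      · exact absurd h hpi.ne'
      · exact h
    have h5 : B l j + B j l = 0 := by exact_mod_cast h4
    linarith
  · intro i j k l hik hjl
    have h := hkey (i, j) (k, l) ⟨hik, hjl⟩
    simp only at h
    rw [hN1 i j k hik, hN2 i j l hjl, hN1 k l i hik.symm, hN2 k l j hjl.symm] at h
    have s1 := hσ j k
    have s2 := hσ l i
    have s3 := (hA i k).2
    have s4 := hB j l
    have h3 : π * ((σ j k : ℝ) - σ l i - A i k - B j l +
        2 * ((N1 i j k : ℝ) - N2 i j l - N1 k l i + N2 k l j)) = 0 := by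
      linarith
    have h4 : (σ j k : ℝ) - σ l i - A i k - B j l +
        2 * ((N1 i j k : ℝ) - N2 i j l - N1 k l i + N2 k l j) = 0 := by
      rcases mul_eq_zero.1 h3 with h | h
      · exact absurd h hpi.ne'
      · exact h
    exact_mod_cast h4

end

end Pool.Agent.H51
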