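import Mathlib
import Pool.Agent.H51.Topo
import Pool.Agent.H51.Minor

set_option autoImplicit false

/-! A graph with a drawing in the plane has no `K_{3,3}` minor. -/

namespace Pool.Agent.H51

/-- The part of the plane covered by the vertices and edges inside `S`. -/
def region {V : Type} (G : SimpleGraph V) (p : V → ℝ × ℝ)
    (γ : V → V → unitInterval → ℝ × ℝ) (S : Set V) : Set (ℝ × ℝ) :=
  {z | (∃ u ∈ S, z = p u) ∨ ∃ u ∈ S, ∃ v ∈ S, G.Adj u v ∧ ∃ t, z = γ u v t}

lemma region_mono {V : Type} (G : SimpleGraph V) (p : V → ℝ × ℝ)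
    (γ : V → V → unitInterval → ℝ × ℝ) {S T : Set V} (h : S ⊆ T) :
    region G p γ S ⊆ region G p γ T := by
  rintro z (⟨u, hu, rfl⟩ | ⟨u, hu, v, hv, huv, t, rfl⟩)
  · exact Or.inl ⟨u, h hu, rfl⟩
  · exact Or.inr ⟨u, h hu, v, h hv, huv, t, rfl⟩

lemma joinedIn_edge {V : Type} {G : SimpleGraph V} {p : V → ℝ × ℝ}
    {γ : V → V → unitInterval → ℝ × ℝ}
    (hγ : ∀ u v, G.Adj u v → Continuous (γ u v) ∧ Function.Injective (γ u v) ∧
      γ u v 0 = p u ∧ γ u v 1 = p v ∧ (∀ z t, γ u v t = p z → z = u ∨ z = v))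
    {S : Set V} {u v : V} (hu : u ∈ S) (hv : v ∈ S) (huv : G.Adj u v) :
    JoinedIn (region G p γ S) (p u) (p v) := by
  obtain ⟨h1, _, h3, h4, _⟩ := hγ u v huv
  exact ⟨⟨⟨γ u v, h1⟩, h3, h4⟩, fun t => Or.inr ⟨u, hu, v, hv, huv, t, rfl⟩⟩

lemma joinedIn_of_conn {V : Type} {G : SimpleGraph V} {p : V → ℝ × ℝ}
    {γ : V → V → unitInterval → ℝ × ℝ}
    (hγ : ∀ u v, G.Adj u v → Continuous (γ u v) ∧ Function.Injective (γ u v) ∧
      γ u v 0 = p u ∧ γ u v 1 = p v ∧ (∀ z t, γ u v t = p z → z = u ∨ z = v))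
    {S : Set V} (hS : Conn G S) {a b : V} (ha : a ∈ S) (hb : b ∈ S) :
    JoinedIn (region G p γ S) (p a) (p b) := by
  have h := hS a ha b hb
  induction h with
  | refl => exact JoinedIn.refl (Or.inl ⟨a, ha, rfl⟩)
  | @tail y z _ hstep ih =>
    obtain ⟨hy, hz, hyz⟩ := hstep
    exact (ih hy).trans (joinedIn_edge hγ hy hz hyz)

/-- A planar graph (drawn in the plane) has no `K_{3,3}` minor. -/
theorem no_K33_of_drawing {V : Type} {G : SimpleGraph V} {p : V → ℝ × ℝ}
    {γ : V → V → unitInterval → ℝ × ℝ}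
    (hp : Function.Injective p)
    (hγ : ∀ u v, G.Adj u v → Continuous (γ u v) ∧ Function.Injective (γ u v) ∧
      γ u v 0 = p u ∧ γ u v 1 = p v ∧ (∀ z t, γ u v t = p z → z = u ∨ z = v))
    (hcross : ∀ u v w x, G.Adj u v → G.Adj w x → u ≠ w → u ≠ x → v ≠ w → v ≠ x →
      ∀ t s, γ u v t = γ w x s → (γ u v t = p u ∨ γ u v t = p v)) :
    ¬ Minor G K33 := by
  rintro ⟨B, hBc, hBd, hBa⟩
  have hadj : ∀ i j : Fin 3, ∃ a ∈ B (Sum.inl i), ∃ b ∈ B (Sum.inr j), G.Adj a b := by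
    intro i j
    exact hBa _ _ (by simp)
  have hneL : ∀ i : Fin 3, ∃ a, a ∈ B (Sum.inl i) := by
    intro i
    obtain ⟨a, ha, _⟩ := hadj i 0
    exact ⟨a, ha⟩
  have hneR : ∀ j : Fin 3, ∃ b, b ∈ B (Sum.inr j) := by
    intro j
    obtain ⟨_, _, b, hb, _⟩ := hadj 0 j
    exact ⟨b, hb⟩
  choose a ha using hneL
  choose b hb using hneR
  have hjoin : ∀ i j, JoinedIn (region G p γ (B (Sum.inl i) ∪ B (Sum.inr j)))
      (p (a i)) (p (b j)) := by
    intro i j
    obtain ⟨c, hc, d, hd, hcd⟩ := hadj i j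
    have h1 := joinedIn_of_conn hγ (hBc _) (ha i) hc
    have h2 := joinedIn_of_conn hγ (hBc _) hd (hb j)
    have h3 : JoinedIn (region G p γ (B (Sum.inl i) ∪ B (Sum.inr j))) (p c) (p d) :=
      joinedIn_edge hγ (Or.inl hc) (Or.inr hd) hcd
    exact ((h1.mono (region_mono G p γ Set.subset_union_left)).trans h3).trans
      (h2.mono (region_mono G p γ Set.subset_union_right))
  have hdisj : ∀ S T : Set V, Disjoint S T → ∀ z, z ∈ region G p γ S → z ∉ region G p γ T := by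
    intro S T hST z hzS hzT
    rw [Set.disjoint_left] at hST
    rcases hzS with ⟨u, hu, hzu⟩ | ⟨u, hu, v, hv, huv, t, hzt⟩
    · rcases hzT with ⟨w, hw, hzw⟩ | ⟨w, hw, x, hx, hwx, s, hzs⟩
      · have : u = w := hp (hzu.symm.trans hzw)
        exact hST hu (this ▸ hw)
      · rcases (hγ w x hwx).2.2.2.2 u s (hzs.symm.trans hzu) with h | h
        · exact hST hu (h ▸ hw)
        · exact hST hu (h ▸ hx)
    · rcases hzT with ⟨w, hw, hzw⟩ | ⟨w, hw, x, hx, hwx, s, hzs⟩
      · rcases (hγ u v huv).2.2.2.2 w t (hzt.symm.trans hzw) with h | h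
        · exact hST hu (h ▸ hw)
        · exact hST hv (h ▸ hw)
      · have heq : γ u v t = γ w x s := hzt.symm.trans hzs
        rcases hcross u v w x huv hwx (fun h => hST hu (h ▸ hw)) (fun h => hST hu (h ▸ hx))
          (fun h => hST hv (h ▸ hw)) (fun h => hST hv (h ▸ hx)) t s heq with h | h
        · rcases (hγ w x hwx).2.2.2.2 u s (heq.symm.trans h) with h' | h'
          · exact hST hu (h' ▸ hw)
          · exact hST hu (h' ▸ hx)
        · rcases (hγ w x hwx).2.2.2.2 v s (heq.symm.trans h) with h' | h'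
          · exact hST hv (h' ▸ hw)
          · exact hST hv (h' ▸ hx)
  choose P hP using hjoin
  let φ : ℝ × ℝ → ℂ := fun z => ⟨z.1, z.2⟩
  have hφc : Continuous φ := by
    have : φ = fun z => ((z.1 : ℂ) + z.2 * Complex.I) := by
      funext z
      exact Complex.mk_eq_add_mul_I z.1 z.2
    rw [this]
    fun_prop
  have hφi : Function.Injective φ := by
    intro z w h
    simp only [φ, Complex.mk.injEq] at h
    exact Prod.ext h.1 h.2
  refine no_K33_paths (fun i => φ (p (a i))) (fun j => φ (p (b j)))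
    (fun i j => (P i j).map hφc) ?_
  intro i j k l hik hjl s t h
  have h' : P i j s = P k l t := hφi h
  have h1 := hP i j s
  have h2 := hP k l t
  rw [← h'] at h2
  refine hdisj _ _ ?_ _ h1 h2
  rw [Set.disjoint_union_left, Set.disjoint_union_right, Set.disjoint_union_right]
  refine ⟨⟨hBd _ _ ?_, hBd _ _ ?_⟩, ⟨hBd _ _ ?_, hBd _ _ ?_⟩⟩
  · intro h; exact hik (Sum.inl_injective h)
  · simp
  · simp
  · intro h; exact hjl (Sum.inr_injective h)

end Pool.Agent.H51
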